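import Pool.Agent.MP_089fcb_co.H21.TwoLog
import Pool.Agent.MP_089fcb_co.H7.Defs

/-! `TwoLogStmt` of the specification, from the two-logarithm bound. -/

namespace Pool.Agent.MP_089fcb_co.H21

open Real

theorem pow_ne_pow_of_gcd (g G m a b : ℕ) (hg : 2 ≤ g) (hG : g ≤ 2 ^ G) (_hm : 3 ≤ m)
    (hgcd : Nat.gcd a b ≤ 2) (hb : 20000 * G ≤ b) : m ^ b ≠ g ^ a := by
  intro h
  have hG1 : 1 ≤ G := by
    by_contra h1
    have : G = 0 := by omega
    subst this
    omega
  obtain ⟨r, hr, hrg⟩ := Nat.exists_prime_and_dvd (show g ≠ 1 by omega)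
  have h1 := congrArg (fun n => n.factorization r) h
  simp only [Nat.factorization_pow, Finsupp.smul_apply, smul_eq_mul] at h1
  have h2 : b ∣ a * g.factorization r := ⟨_, h1.symm⟩
  have h3 : b ∣ Nat.gcd a b * g.factorization r := by
    rw [← Nat.gcd_mul_right]
    exact Nat.dvd_gcd h2 (Dvd.intro _ rfl)
  have hv : 0 < g.factorization r := hr.factorization_pos_of_dvd (by omega) hrg
  have hd : 0 < Nat.gcd a b := Nat.gcd_pos_of_pos_right _ (by omega)
  have h4 := Nat.le_of_dvd (Nat.mul_pos hd hv) h3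
  have h5 : r ^ g.factorization r ≤ g := Nat.le_of_dvd (by omega) (Nat.ordProj_dvd g r)
  have h6 : 2 ^ g.factorization r ≤ 2 ^ G :=
    (Nat.pow_le_pow_left hr.two_le _).trans (h5.trans hG)
  have h7 := (Nat.pow_le_pow_iff_right (by norm_num)).1 h6
  have h8 : Nat.gcd a b * g.factorization r ≤ 2 * G := Nat.mul_le_mul hgcd h7
  omega

theorem twoLogStmt : Pool.Agent.MP_089fcb_co.H7.TwoLogStmt := by
  intro g G m a b hg hG hm hgcd hb
  by_contra hcon
  push Not at hcon
  have hne := pow_ne_pow_of_gcd g G m a b hg hG hm hgcd hb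
  have hG1 : 1 ≤ G := by
    by_contra h1
    have : G = 0 := by omega
    subst this
    omega
  have hx0 : 0 < m ^ b := by positivity
  have hy0 : 0 < g ^ a := by positivity
  obtain ⟨u, s, D, hs, hD, h1, h2, h3, h4, h5⟩ : ∃ u s D : ℕ, s = D + 1 ∧ 1 ≤ D ∧ u < m ^ b ∧
      m ^ b ≤ u + s ∧ u < g ^ a ∧ g ^ a ≤ u + s ∧ D ^ 2 ≤ 2 ^ (G + 2) * g ^ a := by
    have hc : (((m ^ b : ℕ) : ℤ) - ((g ^ a : ℕ) : ℤ)) ^ 2 ≤ ((2 ^ (G + 2) * g ^ a : ℕ) : ℤ) := by
      push_cast; exact hcon
    generalize m ^ b = x at *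
    generalize g ^ a = y at *
    rcases lt_or_gt_of_ne hne with h | h
    · refine ⟨x - 1, y - x + 1, y - x, rfl, by omega, by omega, by omega, by omega, by omega, ?_⟩
      have e : ((x : ℤ) - y) ^ 2 = (((y - x) ^ 2 : ℕ) : ℤ) := by
        push_cast [Nat.cast_sub h.le]; ring
      rw [e] at hc
      exact_mod_cast hc
    · refine ⟨y - 1, x - y + 1, x - y, rfl, by omega, by omega, by omega, by omega, by omega, ?_⟩
      have e : ((x : ℤ) - y) ^ 2 = (((x - y) ^ 2 : ℕ) : ℤ) := by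
        push_cast [Nat.cast_sub h.le]; ring
      rw [e] at hc
      exact_mod_cast hc
  have l2 := log_two_gt_d9
  have l2' := log_two_lt_d9
  have l3 := log_three_gt
  have hG' : (1 : ℝ) ≤ G := by exact_mod_cast hG1
  have hb' : (20000 : ℝ) * G ≤ b := by exact_mod_cast hb
  have hm' : (3 : ℝ) ≤ m := by exact_mod_cast hm
  have hlm := log_le_log (by norm_num) hm'
  have hs2 : s ^ 2 ≤ 2 ^ (G + 4) * (u + s) := by
    calc s ^ 2 ≤ (2 * D) ^ 2 := Nat.pow_le_pow_left (by omega) 2
      _ = 4 * D ^ 2 := by ring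
      _ ≤ 4 * (2 ^ (G + 2) * (u + s)) :=
          Nat.mul_le_mul_left _ (h5.trans (Nat.mul_le_mul_left _ h4))
      _ = _ := by ring
  have hs0 : (0 : ℝ) < s := by exact_mod_cast (show 0 < s by omega)
  have hX0 : (0 : ℝ) < (u : ℝ) + s := by positivity
  have hX : 21972 * G ≤ log ((u : ℝ) + s) := by
    have a2 : (m : ℝ) ^ b ≤ u + s := by exact_mod_cast h2
    have b2 := log_le_log (by positivity) a2
    rw [log_pow] at b2
    have : 20000 * G * 1.0986 ≤ (b : ℝ) * log m :=
      mul_le_mul hb' (by linarith) (by norm_num) (by positivity)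
    linarith
  have hls : 2 * log s ≤ (G + 4) * log 2 + log ((u : ℝ) + s) := by
    have a1 : (s : ℝ) ^ 2 ≤ 2 ^ (G + 4) * ((u : ℝ) + s) := by exact_mod_cast hs2
    have b1 := log_le_log (by positivity) a1
    rw [log_mul (by positivity) hX0.ne', log_pow, log_pow] at b1
    push_cast at b1
    linarith
  have hG2 : (G : ℝ) * log 2 ≤ G * 0.7 := mul_le_mul_of_nonneg_left (by linarith) (by linarith)
  have hsu : (s : ℝ) ≤ u := by
    by_contra h
    push Not at h
    have b1 := log_le_log hX0 (show (u : ℝ) + s ≤ 2 * s by linarith)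
    rw [log_mul (by norm_num) hs0.ne'] at b1
    linarith
  have hu0 : (0 : ℝ) < u := by linarith
  have hlu := log_le_log hX0 (show (u : ℝ) + s ≤ 2 * u by linarith)
  rw [log_mul (by norm_num) hu0.ne'] at hlu
  have l1 := log_1e4_bounds
  have h6 := interval_bound m g a b u s (by omega) hg hne h1 h2 h3 h4 10000 0.4921 le_rfl
    (by nlinarith) (by linarith)
  have h7 := exponent_lt m g b u s (by omega) h2 10000 h6
  have h8 : (g : ℝ) ≤ 2 ^ G := by exact_mod_cast hG
  have h9 := log_le_log (by positivity) h8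
  rw [log_pow] at h9
  linarith

end Pool.Agent.MP_089fcb_co.H21
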