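import Mathlib

/-!
Analytic upper bound for interpolation determinants (real version, no complex analysis).
-/

namespace Pool.Agent.MP_089fcb_co.H21

open Finset

theorem sum_ge_of_inj {n : Type*} [Fintype n] (N : ℕ) (hN : Fintype.card n = N) (τ : n → ℕ)
    (hle : ∀ i, τ i ≤ N) (hinj : ∀ i i', τ i = τ i' → τ i < N → i = i') :
    N * (N - 1) / 2 ≤ ∑ i, τ i := by
  classical
  set s := univ.filter (fun i => τ i < N) with hs
  have hinjOn : Set.InjOn (fun i => (τ i : ℤ)) (s : Set n) := by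
    intro i hi i' _ h
    have h1 : τ i = τ i' := Nat.cast_injective (R := ℤ) h
    have h2 : τ i < N := by simpa [hs] using hi
    exact hinj i i' h1 h2
  have h1 := Finset.sum_range_le_sum (s := s.image (fun i => (τ i : ℤ))) (c := 0) (by
    intro x hx
    obtain ⟨i, -, rfl⟩ := Finset.mem_image.1 hx
    positivity)
  rw [Finset.card_image_of_injOn hinjOn, Finset.sum_image hinjOn] at h1
  have h2 : ∑ i, τ i = ∑ i ∈ s, τ i + ∑ i ∈ univ.filter (fun i => ¬ τ i < N), τ i :=
    (Finset.sum_filter_add_sum_filter_not _ _ _).symm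
  have h3 : ∑ i ∈ univ.filter (fun i => ¬ τ i < N), τ i
      = (univ.filter (fun i => ¬ τ i < N)).card * N := by
    rw [← smul_eq_mul, ← Finset.sum_const]
    refine Finset.sum_congr rfl fun i hi => ?_
    have h4 := (Finset.mem_filter.1 hi).2
    have h5 := hle i
    omega
  have h4 : s.card + (univ.filter (fun i => ¬ τ i < N)).card = N := by
    rw [hs, Finset.card_filter_add_card_filter_not, Finset.card_univ, hN]
  have h5 : (∑ i ∈ range s.card, i) * 2 = s.card * (s.card - 1) := Finset.sum_range_id_mul_two _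
  have h6 : ∑ i ∈ range s.card, i ≤ ∑ i ∈ s, τ i := by
    have : ((∑ i ∈ range s.card, i : ℕ) : ℤ) ≤ ((∑ i ∈ s, τ i : ℕ) : ℤ) := by
      push_cast
      simpa using h1
    exact_mod_cast this
  rw [h2, h3]
  generalize (univ.filter (fun i => ¬ τ i < N)).card = u at h4 ⊢
  generalize s.card = t at h4 h5 h6
  subst h4
  apply Nat.div_le_of_le_mul
  have h7 : (t + u) * (t + u - 1) ≤ t * (t - 1) + 2 * (u * (t + u)) := by
    rcases t with _ | t
    · simp only [zero_add, zero_mul]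
      have : u - 1 ≤ u := Nat.sub_le _ _
      nlinarith
    · have e1 : t + 1 + u - 1 = t + u := by omega
      have e2 : t + 1 - 1 = t := by omega
      rw [e1, e2]
      nlinarith
  omega

theorem det_bound {n : Type*} [Fintype n] [DecidableEq n] (N : ℕ) (hN : Fintype.card n = N)
    (ρ : ℝ) (hρ : 1 ≤ ρ) (c : n → ℕ → ℝ) (ζ : n → ℝ) (E A W : Matrix n n ℝ)
    (hA : ∀ i j, A i j = ∑ m ∈ range N, c i m * ζ j ^ m + E i j)
    (hW : ∀ i j, ∑ m ∈ range N, ρ ^ m * |c i m * ζ j ^ m| + ρ ^ N * |E i j| ≤ W i j) :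
    ρ ^ (N * (N - 1) / 2) * |A.det| ≤ ∑ σ : Equiv.Perm n, ∏ i, W i (σ i) := by
  have hρ0 : 0 ≤ ρ := by linarith
  let T : n → ℕ → n → ℝ := fun i m j => if m < N then c i m * ζ j ^ m else E i j
  have hAT : ∀ i j, A i j = ∑ m ∈ range (N + 1), T i m j := by
    intro i j
    rw [hA, Finset.sum_range_succ]
    congr 1
    · refine Finset.sum_congr rfl fun m hm => ?_
      simp [T, Finset.mem_range.1 hm]
    · simp [T]
  have hWT : ∀ i j, ∑ m ∈ range (N + 1), ρ ^ m * |T i m j| ≤ W i j := by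
    intro i j
    refine le_trans (le_of_eq ?_) (hW i j)
    rw [Finset.sum_range_succ]
    congr 1
    · refine Finset.sum_congr rfl fun m hm => ?_
      simp [T, Finset.mem_range.1 hm]
    · simp [T]
  have hdetT : ∀ M : Matrix n n ℝ,
      M.det = ∑ σ : Equiv.Perm n, ((Equiv.Perm.sign σ : ℤ) : ℝ) * ∏ i, M i (σ i) := by
    intro M
    rw [← Matrix.det_transpose, Matrix.det_apply']
    simp [Matrix.transpose_apply]
  have hdet : A.det = ∑ τ ∈ Fintype.piFinset (fun _ : n => range (N + 1)),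
      (Matrix.of fun i j => T i (τ i) j).det := by
    rw [hdetT]
    simp_rw [hAT, Finset.prod_univ_sum, Finset.mul_sum]
    rw [Finset.sum_comm]
    refine Finset.sum_congr rfl fun τ _ => ?_
    rw [hdetT]
    simp
  have hτ : ∀ τ ∈ Fintype.piFinset (fun _ : n => range (N + 1)),
      ρ ^ (N * (N - 1) / 2) * |(Matrix.of fun i j => T i (τ i) j).det|
        ≤ ∑ σ : Equiv.Perm n, ∏ i, ρ ^ τ i * |T i (τ i) (σ i)| := by
    intro τ hτ
    have hnn : 0 ≤ ∑ σ : Equiv.Perm n, ∏ i, ρ ^ τ i * |T i (τ i) (σ i)| :=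
      Finset.sum_nonneg fun σ _ => Finset.prod_nonneg fun i _ => by positivity
    by_cases hinj : ∀ i i', τ i = τ i' → τ i < N → i = i'
    · have hsum := sum_ge_of_inj N hN τ (fun i => by
        have := Finset.mem_range.1 (Fintype.mem_piFinset.1 hτ i)
        omega) hinj
      have h1 : |(Matrix.of fun i j => T i (τ i) j).det|
          ≤ ∑ σ : Equiv.Perm n, ∏ i, |T i (τ i) (σ i)| := by
        rw [hdetT]
        refine (Finset.abs_sum_le_sum_abs _ _).trans (Finset.sum_le_sum fun σ _ => ?_)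
        rw [abs_mul, Finset.abs_prod]
        have : |((Equiv.Perm.sign σ : ℤ) : ℝ)| = 1 := by
          rcases Int.units_eq_one_or (Equiv.Perm.sign σ) with h | h <;> simp [h]
        rw [this, one_mul]
        simp
      calc ρ ^ (N * (N - 1) / 2) * |(Matrix.of fun i j => T i (τ i) j).det|
          ≤ ρ ^ (∑ i, τ i) * ∑ σ : Equiv.Perm n, ∏ i, |T i (τ i) (σ i)| :=
            mul_le_mul (pow_le_pow_right₀ hρ hsum) h1 (abs_nonneg _) (by positivity)
        _ = _ := by
            rw [Finset.mul_sum]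
            refine Finset.sum_congr rfl fun σ _ => ?_
            rw [Finset.prod_mul_distrib, Finset.prod_pow_eq_pow_sum]
    · push Not at hinj
      obtain ⟨i, i', h1, h2, h3⟩ := hinj
      have hz : (Matrix.of fun i j => T i (τ i) j).det = 0 := by
        have e : (Matrix.of fun i j => T i (τ i) j) = Matrix.of fun i j =>
            (if τ i < N then c i (τ i) else 1) *
              (Matrix.of fun i j => if τ i < N then ζ j ^ τ i else E i j) i j := by
          ext a b
          by_cases h : τ a < N <;> simp [T, h]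
        rw [e, Matrix.det_mul_column, Matrix.det_zero_of_row_eq h3, mul_zero]
        funext b
        have h2' : τ i' < N := h1 ▸ h2
        simp [h1, h2']
      rw [hz]
      simpa using hnn
  calc ρ ^ (N * (N - 1) / 2) * |A.det|
      ≤ ρ ^ (N * (N - 1) / 2) * ∑ τ ∈ Fintype.piFinset (fun _ : n => range (N + 1)),
          |(Matrix.of fun i j => T i (τ i) j).det| := by
        rw [hdet]
        exact mul_le_mul_of_nonneg_left (Finset.abs_sum_le_sum_abs _ _) (by positivity)
    _ ≤ ∑ τ ∈ Fintype.piFinset (fun _ : n => range (N + 1)),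
          ∑ σ : Equiv.Perm n, ∏ i, ρ ^ τ i * |T i (τ i) (σ i)| := by
        rw [Finset.mul_sum]
        exact Finset.sum_le_sum hτ
    _ = ∑ σ : Equiv.Perm n, ∏ i, ∑ m ∈ range (N + 1), ρ ^ m * |T i m (σ i)| := by
        rw [Finset.sum_comm]
        refine Finset.sum_congr rfl fun σ _ => ?_
        rw [Finset.prod_univ_sum]
    _ ≤ _ := by
        refine Finset.sum_le_sum fun σ _ => Finset.prod_le_prod (fun i _ => ?_) fun i _ => hWT _ _
        exact Finset.sum_nonneg fun m _ => by positivity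

theorem hasSum_exp' (x : ℝ) : HasSum (fun t : ℕ => x ^ t / (t.factorial : ℝ)) (Real.exp x) := by
  rw [Real.exp_eq_exp_ℝ]
  exact NormedSpace.expSeries_div_hasSum_exp x

theorem exp_tail (y ρ : ℝ) (hρ : 1 ≤ ρ) (n : ℕ) :
    ∑ t ∈ range n, (ρ * |y|) ^ t / (t.factorial : ℝ)
      + ρ ^ n * |Real.exp y - ∑ t ∈ range n, y ^ t / (t.factorial : ℝ)| ≤ Real.exp (ρ * |y|) := by
  have hρ0 : 0 ≤ ρ := by linarith
  have h1 := (hasSum_nat_add_iff' n).2 (hasSum_exp' y)
  have h2 := (hasSum_nat_add_iff' n).2 (hasSum_exp' (ρ * |y|))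
  have h3 := h1.mul_left (ρ ^ n)
  have h4 : ‖ρ ^ n * (Real.exp y - ∑ t ∈ range n, y ^ t / (t.factorial : ℝ))‖
      ≤ Real.exp (ρ * |y|) - ∑ t ∈ range n, (ρ * |y|) ^ t / (t.factorial : ℝ) := by
    refine h3.norm_le_of_bounded h2 fun t => ?_
    rw [Real.norm_eq_abs, abs_mul, abs_div, abs_pow, abs_pow, abs_of_nonneg hρ0, mul_pow,
      Nat.abs_cast, mul_div_assoc]
    exact mul_le_mul_of_nonneg_right (pow_le_pow_right₀ hρ (by omega)) (by positivity)
  rw [Real.norm_eq_abs, abs_mul, abs_pow, abs_of_nonneg hρ0] at h4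
  linarith

/-- Taylor coefficients of `z ^ k * exp (u * z)`. -/
noncomputable def tc (k : ℕ) (u : ℝ) (m : ℕ) : ℝ :=
  if k ≤ m then u ^ (m - k) / ((m - k).factorial : ℝ) else 0

theorem sum_tc (k n : ℕ) (u : ℝ) (g : ℕ → ℝ → ℝ) (hg : ∀ m, g m 0 = 0) :
    ∑ m ∈ range (k + n), g m (tc k u m)
      = ∑ t ∈ range n, g (k + t) (u ^ t / (t.factorial : ℝ)) := by
  rw [Finset.sum_range_add]
  have : ∑ m ∈ range k, g m (tc k u m) = 0 := by
    refine Finset.sum_eq_zero fun m hm => ?_
    have : ¬ k ≤ m := by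
      have := Finset.mem_range.1 hm
      omega
    simp [tc, this, hg]
  rw [this, zero_add]
  refine Finset.sum_congr rfl fun t _ => ?_
  simp [tc]

theorem row_bound (N k : ℕ) (hk : k ≤ N) (ρ u z η : ℝ) (hρ : 1 ≤ ρ) :
    ∑ m ∈ range N, ρ ^ m * |tc k u m * z ^ m|
      + ρ ^ N * |z ^ k * Real.exp (u * z) * Real.exp η - ∑ m ∈ range N, tc k u m * z ^ m|
      ≤ (ρ * |z|) ^ k * Real.exp (ρ * |u * z|) * (1 + ρ ^ N * |Real.exp η - 1|) := by
  have hρ0 : 0 ≤ ρ := by linarith
  obtain ⟨n, rfl⟩ := Nat.exists_eq_add_of_le hk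
  have e1 := sum_tc k n u (fun m a => ρ ^ m * |a * z ^ m|) (by simp)
  have e2 := sum_tc k n u (fun m a => a * z ^ m) (by simp)
  beta_reduce at e1 e2
  rw [e1, e2]
  have e3 : ∑ t ∈ range n, ρ ^ (k + t) * |u ^ t / (t.factorial : ℝ) * z ^ (k + t)|
      = (ρ * |z|) ^ k * ∑ t ∈ range n, (ρ * |u * z|) ^ t / (t.factorial : ℝ) := by
    rw [Finset.mul_sum]
    refine Finset.sum_congr rfl fun t _ => ?_
    rw [abs_mul, abs_div, abs_pow, abs_pow, Nat.abs_cast, abs_mul]
    ring
  have e4 : ∑ t ∈ range n, u ^ t / (t.factorial : ℝ) * z ^ (k + t)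
      = z ^ k * ∑ t ∈ range n, (u * z) ^ t / (t.factorial : ℝ) := by
    rw [Finset.mul_sum]
    refine Finset.sum_congr rfl fun t _ => ?_
    ring
  rw [e3, e4]
  have h5 := exp_tail (u * z) ρ hρ n
  set S1 := ∑ t ∈ range n, (ρ * |u * z|) ^ t / (t.factorial : ℝ)
  set S2 := ∑ t ∈ range n, (u * z) ^ t / (t.factorial : ℝ)
  have h6 : |z ^ k * Real.exp (u * z) * Real.exp η - z ^ k * S2|
      ≤ |z| ^ k * |Real.exp (u * z) - S2| + |z| ^ k * Real.exp (u * z) * |Real.exp η - 1| := by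
    have : z ^ k * Real.exp (u * z) * Real.exp η - z ^ k * S2
        = z ^ k * (Real.exp (u * z) - S2) + z ^ k * Real.exp (u * z) * (Real.exp η - 1) := by ring
    rw [this]
    refine (abs_add_le _ _).trans (le_of_eq ?_)
    rw [abs_mul, abs_mul, abs_mul, abs_pow, abs_of_pos (Real.exp_pos _)]
  have h7 : Real.exp (u * z) ≤ Real.exp (ρ * |u * z|) := by
    apply Real.exp_le_exp.2
    have := le_abs_self (u * z)
    have := abs_nonneg (u * z)
    nlinarith
  have h8 : |z| ^ k ≤ (ρ * |z|) ^ k := by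
    apply pow_le_pow_left₀ (abs_nonneg _)
    have := abs_nonneg z
    nlinarith
  have h9 : |z| ^ k * Real.exp (u * z) ≤ (ρ * |z|) ^ k * Real.exp (ρ * |u * z|) :=
    mul_le_mul h8 h7 (Real.exp_pos _).le (by positivity)
  have h10 : ρ ^ (k + n) * (|z| ^ k * Real.exp (u * z) * |Real.exp η - 1|)
      ≤ ρ ^ (k + n) * ((ρ * |z|) ^ k * Real.exp (ρ * |u * z|) * |Real.exp η - 1|) :=
    mul_le_mul_of_nonneg_left (mul_le_mul_of_nonneg_right h9 (abs_nonneg _)) (by positivity)
  have h11 : (ρ * |z|) ^ k * (S1 + ρ ^ n * |Real.exp (u * z) - S2|)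
      ≤ (ρ * |z|) ^ k * Real.exp (ρ * |u * z|) := mul_le_mul_of_nonneg_left h5 (by positivity)
  have h12 := mul_le_mul_of_nonneg_left h6 (show 0 ≤ ρ ^ (k + n) by positivity)
  have e13 : ρ ^ (k + n) * (|z| ^ k * |Real.exp (u * z) - S2|)
      = (ρ * |z|) ^ k * (ρ ^ n * |Real.exp (u * z) - S2|) := by
    rw [mul_pow, pow_add]; ring
  nlinarith

end Pool.Agent.MP_089fcb_co.H21
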