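import Pool.Agent.MP_089fcb_co.H21.TwoLogGen

/-!
Explicit lower bound for a linear form in two logarithms of integers, and consequences for
two perfect powers lying in a short interval.
-/

namespace Pool.Agent.MP_089fcb_co.H21

open Real

theorem liouville_log (m n : ℕ) (hm : 0 < m) (hn : 0 < n) (hne : m ≠ n) :
    1 / (2 * (n : ℝ)) ≤ |log m - log n| := by
  have hm' : (0 : ℝ) < m := by exact_mod_cast hm
  have hn' : (1 : ℝ) ≤ n := by exact_mod_cast hn
  rcases lt_or_gt_of_ne hne with h | h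
  · have h1 : (m : ℝ) + 1 ≤ n := by exact_mod_cast h
    have h2 := log_le_sub_one_of_pos (div_pos hm' (by linarith : (0 : ℝ) < n))
    rw [log_div hm'.ne' (by linarith)] at h2
    have h3 : (m : ℝ) / n - 1 ≤ - (1 / (2 * n)) := by
      rw [div_sub_one (by linarith), ← neg_div, div_le_div_iff₀ (by linarith) (by linarith)]
      nlinarith
    exact le_trans (by linarith) (neg_le_abs _)
  · have h1 : (n : ℝ) + 1 ≤ m := by exact_mod_cast h
    have h2 := log_le_sub_one_of_pos (div_pos (by linarith : (0 : ℝ) < n) hm')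
    rw [log_div (by linarith) hm'.ne'] at h2
    have h3 : (n : ℝ) / m - 1 ≤ - (1 / (2 * n)) := by
      rw [div_sub_one hm'.ne', ← neg_div, div_le_div_iff₀ hm' (by linarith)]
      nlinarith
    exact le_trans (by linarith) (le_abs_self _)

theorem log_three_gt : (1.0986 : ℝ) < log 3 := by
  have h2 := log_two_gt_d9
  have h1 : (1 : ℝ) / 9 + 1 / 162 + 1 / 2187 + 1 / 26244 ≤ log (9 / 8) := by
    have h := Real.hasSum_pow_div_log_of_abs_lt_one (x := 1 / 9) (by norm_num [abs_of_pos])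
    have h3 := sum_le_hasSum (Finset.range 4) (fun i _ => by positivity) h
    have e : -log (1 - 1 / 9 : ℝ) = log (9 / 8) := by
      rw [← log_inv]; norm_num
    rw [e] at h3
    refine le_trans (le_of_eq ?_) h3
    simp [Finset.sum_range_succ]
    norm_num
  have e2 : log (9 / 8 : ℝ) = 2 * log 3 - 3 * log 2 := by
    rw [log_div (by norm_num) (by norm_num), show (9 : ℝ) = 3 ^ 2 by norm_num,
      show (8 : ℝ) = 2 ^ 3 by norm_num, log_pow, log_pow]
    norm_num
  linarith

theorem log_1e4_bounds : (9.21 : ℝ) < log 10000 ∧ log 10000 < 9.2104 := by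
  have h2 := log_two_gt_d9
  have h2' := log_two_lt_d9
  have h5 := log_five_gt_d9
  have h5' := log_five_lt_d9
  have e : log (10000 : ℝ) = 4 * log 2 + 4 * log 5 := by
    rw [show (10000 : ℝ) = 2 ^ 4 * 5 ^ 4 by norm_num, log_mul (by norm_num) (by norm_num),
      log_pow, log_pow]
    norm_num
  constructor <;> linarith

theorem num_lambda (L K S P A1 A2 b2 lam : ℝ) (hA1 : 0.693 ≤ A1) (hA2 : 1.0986 ≤ A2)
    (hP : P = A2 * A1) (hL : 12 ≤ L) (hK2 : K ≤ 16 * L * P + 1) (hS0 : 0 ≤ S)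
    (hS : S ≤ 4.121 * L * A1) (hb2 : 1 ≤ b2) (hlam0 : 0 ≤ lam)
    (hlam : lam ≤ exp (-(33 * L ^ 2 * P))) :
    exp (K * L * 2) * (L * S * lam / (4 * b2)) ≤ 1 / 2 := by
  have hP0 : (0.76 : ℝ) ≤ P := by nlinarith
  have hLP : (9.12 : ℝ) ≤ L * P := by nlinarith
  obtain ⟨t, ht⟩ : ∃ t, t = L * (L * P) := ⟨_, rfl⟩
  have ht1 : 9.12 * L ≤ t := by nlinarith
  have ht0 : 109 ≤ t := by linarith
  have h3 : L * S ≤ 4 * t := by
    have h4 : L * S ≤ L * (4.121 * L * A1) := mul_le_mul_of_nonneg_left hS (by linarith)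
    have h5 : 0 ≤ L * L * A1 := by positivity
    have h6 : L * L * A1 * 1.0986 ≤ L * L * A1 * A2 := mul_le_mul_of_nonneg_left hA2 h5
    have h7 : t = L * L * A1 * A2 := by rw [ht, hP]; ring
    nlinarith
  have h4 : L * S * lam / (4 * b2) ≤ t * exp (-(33 * t)) := by
    rw [div_le_iff₀ (by positivity)]
    have h5 : lam ≤ exp (-(33 * t)) := by
      have : 33 * t = 33 * L ^ 2 * P := by rw [ht]; ring
      rw [this]; exact hlam
    have h6 : L * S * lam ≤ 4 * t * exp (-(33 * t)) :=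
      mul_le_mul h3 h5 hlam0 (by linarith)
    have h7 : 0 ≤ t * exp (-(33 * t)) := by positivity
    have h8 := mul_le_mul_of_nonneg_left hb2 h7
    linarith
  have h5 : K * L * 2 ≤ 32.22 * t := by
    have h6 : K * L ≤ (16 * L * P + 1) * L := mul_le_mul_of_nonneg_right hK2 (by linarith)
    have h7 : (16 * L * P + 1) * L = 16 * t + L := by rw [ht]; ring
    linarith
  have h6 : t ≤ 1 / 2 * exp (0.78 * t) := by
    have h7 := add_one_le_exp (0.39 * t)
    have e : exp (0.78 * t) = exp (0.39 * t) * exp (0.39 * t) := by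
      rw [← exp_add]; ring_nf
    have h8 : 0.39 * t * (0.39 * t) ≤ exp (0.39 * t) * exp (0.39 * t) :=
      mul_le_mul (by linarith) (by linarith) (by linarith) (exp_pos _).le
    rw [e]
    nlinarith
  calc exp (K * L * 2) * (L * S * lam / (4 * b2))
      ≤ exp (32.22 * t) * (1 / 2 * exp (0.78 * t) * exp (-(33 * t))) :=
        mul_le_mul (exp_le_exp.2 h5) (h4.trans (mul_le_mul_of_nonneg_right h6 (by positivity)))
          (by positivity) (by positivity)
    _ = 1 / 2 * exp (32.22 * t + 0.78 * t + -(33 * t)) := by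
        rw [exp_add, exp_add]; ring
    _ = 1 / 2 := by
        have : 32.22 * t + 0.78 * t + -(33 * t) = 0 := by ring
        rw [this, exp_zero, mul_one]

theorem num_final (L K R S P A1 A2 B : ℝ) (hA1 : 0.693 ≤ A1) (hA2 : 1.0986 ≤ A2)
    (hP : P = A2 * A1) (hL : 12 ≤ L) (hK1 : 16 * L * P < K) (hK146 : 146 ≤ K) (hR0 : 0 ≤ R)
    (hS0 : 0 ≤ S) (hR : R ≤ 4.911 * L * A2) (hS : S ≤ 4.121 * L * A1) (hB0 : 0 < B)
    (hL1 : log B + 2 ≤ L)
    (hgen : K * (L - 1) * 2 ≤ 2 * log (4 * (K * L))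
      + (K - 1) * (log (4.456 * L * P * B / (K - 1)) + 3 / 2)
      + (exp 2 + 1) * L * (9 / 8) * (R * A1 + S * A2) / 6) : False := by
  have hP0 : (0.76 : ℝ) ≤ P := by nlinarith
  have hLP : (9.12 : ℝ) ≤ L * P := by nlinarith
  have hρ2 : exp 2 ≤ (7.39 : ℝ) := by
    have := exp_one_lt_d9
    have e : exp 2 = exp 1 * exp 1 := by rw [← exp_add]; norm_num
    have := exp_pos 1
    nlinarith
  have g1 : 2 * log (4 * (K * L)) ≤ 0.14 * K := by
    have h2 : 4 * L ≤ K := by nlinarith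
    have h3 : 4 * (K * L) ≤ K * K := by nlinarith
    have h4 := log_le_log (by positivity) h3
    rw [log_mul (x := K) (by positivity) (by positivity)] at h4
    have h5 := log_le_sub_one_of_pos (show 0 < K / 128 by positivity)
    rw [log_div (by positivity) (by norm_num), show (128 : ℝ) = 2 ^ 7 by norm_num, log_pow] at h5
    have := log_two_lt_d9
    push_cast at h5
    linarith
  have g2 : log (4.456 * L * P * B / (K - 1)) ≤ log B - 1 := by
    have h3 : 4.456 * L * P * B / (K - 1) ≤ B * exp (-1) := by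
      rw [div_le_iff₀ (by linarith)]
      have h4 := exp_neg_one_gt_d9
      have h5 : 15.89 * (L * P) ≤ K - 1 := by linarith
      have h6 : 0.36 * (15.89 * (L * P)) ≤ exp (-1) * (K - 1) :=
        mul_le_mul (by linarith) h5 (by positivity) (by positivity)
      have h7 := mul_le_mul_of_nonneg_left h6 hB0.le
      have h8 : 0 ≤ B * (L * P) := by positivity
      linarith
    have h4 := log_le_log (div_pos (by positivity) (by linarith)) h3
    rw [log_mul hB0.ne' (exp_pos _).ne', log_exp] at h4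
    linarith
  have g3 : (exp 2 + 1) * L * (9 / 8) * (R * A1 + S * A2) / 6 ≤ 0.889 * (L * K) := by
    have h3 : R * A1 + S * A2 ≤ 9.032 * (L * P) := by
      have h4 := mul_le_mul_of_nonneg_right hR (show 0 ≤ A1 by linarith)
      have h5 := mul_le_mul_of_nonneg_right hS (show 0 ≤ A2 by linarith)
      rw [hP]
      linarith
    have h4 : (exp 2 + 1) * L * (9 / 8) ≤ 8.39 * L * (9 / 8) := by nlinarith
    have h5 := mul_le_mul h4 h3 (by positivity) (by positivity)
    have h6 : L * (16 * L * P) ≤ L * K := mul_le_mul_of_nonneg_left hK1.le (by linarith)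
    have h7 : 0 ≤ L * (L * P) := by positivity
    linarith
  have g4 : (K - 1) * (log (4.456 * L * P * B / (K - 1)) + 3 / 2) ≤ K * (L - 3 / 2) := by
    have h3 : (K - 1) * (log (4.456 * L * P * B / (K - 1)) + 3 / 2)
        ≤ (K - 1) * (L - 3 / 2) := mul_le_mul_of_nonneg_left (by linarith) (by linarith)
    linarith
  have g5 : K * 12 ≤ K * L := mul_le_mul_of_nonneg_left hL (by linarith)
  linarith

theorem two_log_core (p q b1 b2 : ℕ) (hq : 2 ≤ q) (hp : 3 ≤ p) (hne : p ^ b2 ≠ q ^ b1)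
    (hcop : Nat.Coprime b1 b2) (B : ℝ) (hB : 10000 ≤ B) (h1 : (b1 : ℝ) ≤ B * log p)
    (h2 : (b2 : ℝ) ≤ B * log q) :
    exp (-(33 * (log B + 3) ^ 2 * (log p * log q))) ≤ |b2 * log p - b1 * log q| := by
  have hq' : (2 : ℝ) ≤ q := by exact_mod_cast hq
  have hp' : (3 : ℝ) ≤ p := by exact_mod_cast hp
  have hA1 : (0.693 : ℝ) ≤ log q := by
    have := log_le_log (by norm_num) hq'
    have := log_two_gt_d9
    linarith
  have hA2 : (1.0986 : ℝ) ≤ log p := by
    have := log_le_log (by norm_num) hp'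
    have := log_three_gt
    linarith
  have hlB : (9.21 : ℝ) ≤ log B := by
    have := log_le_log (by norm_num) hB
    have := log_1e4_bounds.1
    linarith
  obtain ⟨A1, hA1d⟩ : ∃ A1, A1 = log (q : ℝ) := ⟨_, rfl⟩
  obtain ⟨A2, hA2d⟩ : ∃ A2, A2 = log (p : ℝ) := ⟨_, rfl⟩
  obtain ⟨P, hP⟩ : ∃ P, P = A2 * A1 := ⟨_, rfl⟩
  rw [← hA1d] at hA1 h2 ⊢
  rw [← hA2d] at hA2 h1 ⊢
  rw [← hP]
  have hP0 : (0.76 : ℝ) ≤ P := by nlinarith
  obtain ⟨L, hL1, hL2⟩ : ∃ L : ℕ, log B + 2 ≤ L ∧ (L : ℝ) ≤ log B + 3 := by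
    refine ⟨⌈log B⌉₊ + 2, ?_, ?_⟩
    · have := Nat.le_ceil (log B)
      push_cast; linarith
    · have := Nat.ceil_lt_add_one (show 0 ≤ log B by linarith)
      push_cast; linarith
  have hL12 : 12 ≤ L := by
    have : (11 : ℝ) < L := by linarith
    exact_mod_cast (show 11 < L by exact_mod_cast this)
  have hL12' : (12 : ℝ) ≤ L := by exact_mod_cast hL12
  have hexp : exp (-(33 * (log B + 3) ^ 2 * P)) ≤ exp (-(33 * (L : ℝ) ^ 2 * P)) := by
    apply exp_le_exp.2
    have : (L : ℝ) ^ 2 ≤ (log B + 3) ^ 2 := pow_le_pow_left₀ (by linarith) hL2 2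
    nlinarith
  refine hexp.trans ?_
  by_contra hcon
  push Not at hcon
  have hLP : (9.12 : ℝ) ≤ L * P := by nlinarith
  have hfl : ∀ x : ℝ, 0 ≤ x → ∃ n : ℕ, 1 ≤ n ∧ x < n ∧ (n : ℝ) ≤ x + 1 := by
    intro x hx
    refine ⟨⌊x⌋₊ + 1, by omega, ?_, ?_⟩
    · push_cast; exact Nat.lt_floor_add_one _
    · have := Nat.floor_le hx
      push_cast; linarith
  obtain ⟨K, hK0, hK1, hK2⟩ := hfl (16 * L * P) (by positivity)
  obtain ⟨R2, hR0, hR1, hR2⟩ := hfl (4 * L * A2) (by positivity)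
  obtain ⟨S, hS0, hS1, hS2⟩ := hfl (4 * L * A1) (by positivity)
  have hLA1 : 12 * 0.693 ≤ L * A1 := mul_le_mul hL12' hA1 (by norm_num) (by linarith)
  have hLA2 : L * 1.0986 ≤ L * A2 := mul_le_mul_of_nonneg_left hA2 (by linarith)
  by_cases hsmall : R2 ≤ b1 ∧ 0 < b2
  swap
  · have hb1 : (b1 : ℝ) ≤ 4 * L * A2 := by
      have h3 : b1 < R2 ∨ b2 = 0 := by omega
      rcases h3 with h3 | h3
      · have : (b1 : ℝ) + 1 ≤ R2 := by exact_mod_cast h3
        linarith
      · subst h3
        have : b1 = 1 := by simpa using hcop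
        subst this
        push_cast
        linarith
    have h3 := liouville_log (p ^ b2) (q ^ b1) (by positivity) (by positivity) hne
    push_cast at h3
    rw [log_pow, log_pow, ← hA1d, ← hA2d] at h3
    have h4 : (q : ℝ) ^ b1 = exp (b1 * A1) := by
      rw [exp_nat_mul, hA1d, exp_log (by linarith)]
    have h5 : exp (-(33 * (L : ℝ) ^ 2 * P)) ≤ 1 / (2 * (q : ℝ) ^ b1) := by
      rw [h4, le_div_iff₀ (by positivity), mul_left_comm, ← exp_add]
      have h6 : -(33 * (L : ℝ) ^ 2 * P) + b1 * A1 ≤ -1 := by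
        have h7 : (b1 : ℝ) * A1 ≤ 4 * L * A2 * A1 := mul_le_mul_of_nonneg_right hb1 (by linarith)
        have h8 : 4 * L * A2 * A1 = 4 * (L * P) := by rw [hP]; ring
        have h9 : 12 * (L * P) ≤ L * (L * P) := mul_le_mul_of_nonneg_right hL12' (by linarith)
        linarith
      have h7 : exp (-1 : ℝ) ≤ 1 / 2 := by
        have := exp_neg_one_lt_d9
        linarith
      have := exp_le_exp.2 h6
      linarith
    linarith
  obtain ⟨hRb, hb2⟩ := hsmall
  have hK146 : 146 ≤ K := by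
    have : (145 : ℝ) < K := by linarith
    exact_mod_cast (show 145 < K by exact_mod_cast this)
  have hK146' : (146 : ℝ) ≤ K := by exact_mod_cast hK146
  have hRe : ((R2 + L - 1 : ℕ) : ℝ) = R2 + L - 1 := by
    rw [Nat.cast_sub (by omega)]; push_cast; ring
  have hR : ((R2 + L - 1 : ℕ) : ℝ) ≤ 4.911 * L * A2 := by rw [hRe]; linarith
  have hS : (S : ℝ) ≤ 4.121 * L * A1 := by linarith
  have hρ : (1 : ℝ) ≤ exp 2 := one_le_exp (by norm_num)
  have hB0 : 0 < B := by linarith
  have hgen := two_log_gen p q b1 b2 K L R2 S (by omega) hq hcop hb2 (by omega) (by omega) hRb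
    (by
      have h3 : ((K - 1 : ℕ) : ℝ) * L < R2 * S := by
        rw [Nat.cast_sub (by omega)]
        have h4 : 4 * L * A2 * (4 * L * A1) < R2 * S :=
          mul_lt_mul'' hR1 hS1 (by positivity) (by positivity)
        have h5 : ((K : ℝ) - 1) * L ≤ 16 * L * P * L :=
          mul_le_mul_of_nonneg_right (by linarith) (by linarith)
        have h6 : 4 * L * A2 * (4 * L * A1) = 16 * L * P * L := by rw [hP]; ring
        push_cast
        linarith
      exact_mod_cast h3)
    (exp 2) (9 / 8) (4.456 * L * P * B) hρ (by norm_num)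
    (by
      have h3 : ((R2 + L - 1 : ℕ) : ℝ) * S ≤ 4.911 * L * A2 * (4.121 * L * A1) :=
        mul_le_mul hR hS (by positivity) (by positivity)
      have h4 : 16 * L * P * L ≤ K * L := mul_le_mul_of_nonneg_right hK1.le (by linarith)
      have h5 : 0 ≤ L * L * P := by positivity
      have h6 : 4.911 * L * A2 * (4.121 * L * A1) = 4.911 * 4.121 * (L * L * P) := by
        rw [hP]; ring
      linarith)
    (by positivity)
    (by
      have h3 : (((R2 + L - 1 : ℕ) : ℝ) - 1) * b2 ≤ 4.911 * L * A2 * (B * A1) :=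
        mul_le_mul (by linarith) h2 (by positivity) (by positivity)
      have h4 : ((S : ℝ) - 1) * b1 ≤ 4 * L * A1 * (B * A2) :=
        mul_le_mul (by linarith) h1 (by positivity) (by positivity)
      have h5 : 0 ≤ L * P * B := by positivity
      have h6 : 4.911 * L * A2 * (B * A1) = 4.911 * (L * P * B) := by rw [hP]; ring
      have h7 : 4 * L * A1 * (B * A2) = 4 * (L * P * B) := by rw [hP]; ring
      linarith)
    (by
      rw [← hA1d, ← hA2d, ← exp_nat_mul]
      push_cast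
      exact num_lambda L K S P A1 A2 b2 _ hA1 hA2 hP hL12' hK2 (by positivity) hS
        (by exact_mod_cast hb2) (abs_nonneg _) hcon.le)
  rw [log_exp, ← hA1d, ← hA2d] at hgen
  exact num_final L K _ S P A1 A2 B hA1 hA2 hP hL12' hK1 hK146' (by positivity) (by positivity)
    hR hS hB0 hL1 hgen

/-- Lower bound for `|l log p - k log q|`. -/
theorem two_log (p q k l : ℕ) (hp : 2 ≤ p) (hq : 2 ≤ q) (hne : p ^ l ≠ q ^ k)
    (B : ℝ) (hB : 10000 ≤ B) (hk : (k : ℝ) ≤ B * log p) (hl : (l : ℝ) ≤ B * log q) :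
    exp (-(33 * (log B + 3) ^ 2 * (log p * log q))) ≤ |l * log p - k * log q| := by
  have key : ∀ p q k l : ℕ, 2 ≤ q → 3 ≤ p → p ^ l ≠ q ^ k → (k : ℝ) ≤ B * log p →
      (l : ℝ) ≤ B * log q →
      exp (-(33 * (log B + 3) ^ 2 * (log p * log q))) ≤ |l * log p - k * log q| := by
    intro p q k l hq hp hne hk hl
    have hg : 0 < Nat.gcd k l := by
      rw [Nat.pos_iff_ne_zero, Ne, Nat.gcd_eq_zero_iff]
      rintro ⟨rfl, rfl⟩
      simp at hne
    obtain ⟨k', l', hcop, hk', hl'⟩ := Nat.exists_coprime k l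
    set g := Nat.gcd k l
    have hg' : (1 : ℝ) ≤ g := by exact_mod_cast hg
    have h1 : (k' : ℝ) ≤ k := by
      rw [hk']; push_cast; nlinarith [Nat.cast_nonneg (α := ℝ) k']
    have h2 : (l' : ℝ) ≤ l := by
      rw [hl']; push_cast; nlinarith [Nat.cast_nonneg (α := ℝ) l']
    have h3 := two_log_core p q k' l' hq hp (by
      intro h
      apply hne
      rw [hk', hl', pow_mul, pow_mul, h]) hcop B hB (h1.trans hk) (h2.trans hl)
    refine h3.trans ?_
    have e : (l : ℝ) * log p - k * log q = g * (l' * log p - k' * log q) := by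
      rw [hk', hl']; push_cast; ring
    rw [e, abs_mul, abs_of_nonneg (by linarith : (0 : ℝ) ≤ g)]
    nlinarith [abs_nonneg ((l' : ℝ) * log p - k' * log q)]
  by_cases hp3 : 3 ≤ p
  · exact key p q k l hq hp3 hne hk hl
  by_cases hq3 : 3 ≤ q
  · have := key q p l k hp hq3 (Ne.symm hne) hl hk
    rw [abs_sub_comm, mul_comm (log (q : ℝ))] at this
    exact this
  have e1 : p = 2 := by omega
  have e2 : q = 2 := by omega
  subst e1 e2
  have hkl : (l : ℤ) - k ≠ 0 := by
    intro h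
    apply hne
    have : l = k := by omega
    rw [this]
  have h1 : (1 : ℝ) ≤ |(l : ℝ) - k| := by
    have := Int.one_le_abs hkl
    exact_mod_cast this
  have h2 := log_two_gt_d9
  have hlB : (9.21 : ℝ) ≤ log B := by
    have := log_le_log (by norm_num) hB
    have := log_1e4_bounds.1
    linarith
  push_cast
  rw [← sub_mul, abs_mul, abs_of_pos (by linarith : 0 < log 2)]
  have h3 : -(33 * (log B + 3) ^ 2 * (log 2 * log 2)) ≤ -1 := by
    have : (0.48 : ℝ) ≤ log 2 * log 2 := by nlinarith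
    have : (1 : ℝ) ≤ (log B + 3) ^ 2 := by nlinarith
    nlinarith
  have h4 := exp_le_exp.2 h3
  have h5 := exp_neg_one_lt_d9
  nlinarith

/-- Two different powers in `(u, u + s]`, general exponent `θ`. -/
theorem interval_bound (p q k l u s : ℕ) (hp : 2 ≤ p) (hq : 2 ≤ q) (hne : p ^ l ≠ q ^ k)
    (h1 : u < p ^ l) (h2 : p ^ l ≤ u + s) (h3 : u < q ^ k) (h4 : q ^ k ≤ u + s)
    (B0 θ : ℝ) (hB0 : 10000 ≤ B0) (hθ : 33 * (log B0 + 3) ^ 2 ≤ θ * B0)
    (hs : log s + θ * log ((u : ℝ) + s) < log u) :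
    log ((u : ℝ) + s) < B0 * (log p * log q) := by
  by_contra hcon
  push Not at hcon
  have hp' : (2 : ℝ) ≤ p := by exact_mod_cast hp
  have hq' : (2 : ℝ) ≤ q := by exact_mod_cast hq
  have hA1 : 0 < log q := log_pos (by linarith)
  have hA2 : 0 < log p := log_pos (by linarith)
  have hP : 0 < log p * log q := mul_pos hA2 hA1
  have hs0 : (0 : ℝ) < s := by exact_mod_cast (show 0 < s by omega)
  have hlB0 : (9.21 : ℝ) ≤ log B0 := by
    have := log_le_log (by norm_num) hB0
    have := log_1e4_bounds.1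
    linarith
  have hθ0 : 0 < θ := by
    by_contra h
    push Not at h
    nlinarith
  have hX0 : 0 < log ((u : ℝ) + s) := lt_of_lt_of_le (by positivity) hcon
  have hu0 : (0 : ℝ) < u := by
    rcases Nat.eq_zero_or_pos u with rfl | h
    · exfalso
      have := mul_pos hθ0 hX0
      simp only [Nat.cast_zero, zero_add, log_zero] at hs hX0 this
      linarith
    · exact_mod_cast h
  obtain ⟨B, hBd⟩ : ∃ B, B = log ((u : ℝ) + s) / (log p * log q) := ⟨_, rfl⟩
  have hBP : B * (log p * log q) = log ((u : ℝ) + s) := by rw [hBd]; field_simp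
  have hB : B0 ≤ B := by rw [hBd, le_div_iff₀ hP]; exact hcon
  have a1 : (u : ℝ) < (p : ℝ) ^ l := by exact_mod_cast h1
  have a2 : (p : ℝ) ^ l ≤ u + s := by exact_mod_cast h2
  have a3 : (u : ℝ) < (q : ℝ) ^ k := by exact_mod_cast h3
  have a4 : (q : ℝ) ^ k ≤ u + s := by exact_mod_cast h4
  have b1 := log_le_log hu0 a1.le
  have b2 := log_le_log (by positivity) a2
  have b3 := log_le_log hu0 a3.le
  have b4 := log_le_log (by positivity) a4
  rw [log_pow] at b1 b2 b3 b4
  have hk : (k : ℝ) ≤ B * log p := by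
    refine le_of_mul_le_mul_right ?_ hA1
    linarith
  have hl : (l : ℝ) ≤ B * log q := by
    refine le_of_mul_le_mul_right ?_ hA2
    linarith
  have h5 := two_log p q k l hp hq hne B (hB0.trans hB) hk hl
  have h6 : |l * log p - k * log q| ≤ s / u := by
    have h7 := log_le_sub_one_of_pos (show 0 < ((u : ℝ) + s) / u by positivity)
    rw [log_div (by positivity) hu0.ne'] at h7
    have e : ((u : ℝ) + s) / u - 1 = s / u := by field_simp; ring
    rw [abs_le]
    constructor <;> linarith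
  have h8 : 33 * (log B + 3) ^ 2 ≤ θ * B := by
    have hB00 : 0 < B0 := by linarith
    obtain ⟨t, ht1, ht⟩ : ∃ t : ℝ, 1 ≤ t ∧ B = B0 * t ^ 2 := by
      refine ⟨√(B / B0), ?_, ?_⟩
      · rw [one_le_sqrt, le_div_iff₀ hB00]; linarith
      · rw [sq_sqrt (div_nonneg (by linarith) hB00.le)]; field_simp
    have h9 := log_le_sub_one_of_pos (show 0 < t by linarith)
    have h10 : log B = log B0 + 2 * log t := by
      rw [ht, log_mul hB00.ne' (by positivity), log_pow]; norm_num
    have h11 : log B + 3 ≤ (log B0 + 3) * t := by nlinarith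
    have h12 : 0 ≤ log B + 3 := by
      have := log_nonneg ht1
      linarith
    have h13 := pow_le_pow_left₀ h12 h11 2
    have h14 := mul_le_mul_of_nonneg_right hθ (sq_nonneg t)
    rw [ht] at *
    nlinarith
  have h9 : exp (-(θ * log ((u : ℝ) + s))) ≤ s / u := by
    refine le_trans (exp_le_exp.2 ?_) (h5.trans h6)
    rw [← hBP]
    have := mul_le_mul_of_nonneg_right h8 hP.le
    linarith
  have h10 := log_le_log (exp_pos _) h9
  rw [log_exp, log_div hs0.ne' hu0.ne'] at h10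
  linarith

theorem interval_aux (p q k l u s a : ℕ) (hp : 2 ≤ p) (hq : 2 ≤ q) (hne : p ^ l ≠ q ^ k)
    (h1 : u < p ^ l) (h2 : p ^ l ≤ u + s) (h3 : u < q ^ k) (h4 : q ^ k ≤ u + s)
    (B0 θ : ℝ) (hB0 : 10000 ≤ B0) (hθ : 33 * (log B0 + 3) ^ 2 ≤ θ * B0)
    (hs : s ^ (a + 1) ≤ 2 ^ 100 * u ^ a) (hθ2 : 71 < (1 - (a + 1) * θ) * (0.48 * B0)) :
    log ((u : ℝ) + s) < B0 * (log p * log q) := by
  by_contra hcon
  have hcon' := hcon
  push Not at hcon
  have hp' : (2 : ℝ) ≤ p := by exact_mod_cast hp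
  have hq' : (2 : ℝ) ≤ q := by exact_mod_cast hq
  have l2 := log_two_gt_d9
  have l2' := log_two_lt_d9
  have hA1 := log_le_log (by norm_num) hq'
  have hA2 := log_le_log (by norm_num) hp'
  have hP : (0.48 : ℝ) ≤ log p * log q := by nlinarith
  have hX : 0.48 * B0 ≤ log ((u : ℝ) + s) := by nlinarith
  have hs0 : 0 < s := by omega
  have hsu : s ≤ u := by
    by_contra h
    push Not at h
    have h5 : s ^ (a + 1) ≤ 2 ^ 100 * s ^ a :=
      hs.trans (Nat.mul_le_mul_left _ (Nat.pow_le_pow_left h.le a))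
    rw [pow_succ, mul_comm] at h5
    have h6 : s ≤ 2 ^ 100 := Nat.le_of_mul_le_mul_right h5 (by positivity)
    have h7 : (u : ℝ) + s ≤ 2 ^ 101 := by exact_mod_cast (show u + s ≤ 2 ^ 101 by omega)
    have h8 := log_le_log (by positivity) h7
    rw [log_pow] at h8
    push_cast at h8
    linarith
  have hs0' : (0 : ℝ) < s := by exact_mod_cast hs0
  have hsu' : (s : ℝ) ≤ u := by exact_mod_cast hsu
  have hu0 : (0 : ℝ) < u := by linarith
  apply hcon'
  refine interval_bound p q k l u s hp hq hne h1 h2 h3 h4 B0 θ hB0 hθ ?_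
  have h5 : (s : ℝ) ^ (a + 1) ≤ 2 ^ 100 * (u : ℝ) ^ a := by exact_mod_cast hs
  have h6 := log_le_log (by positivity) h5
  rw [log_mul (by positivity) (by positivity), log_pow, log_pow, log_pow] at h6
  have h7 := log_le_log (by positivity) (show (u : ℝ) + s ≤ 2 * u by linarith)
  rw [log_mul (by norm_num) hu0.ne'] at h7
  push_cast at h6
  have ha : (0 : ℝ) < (a : ℝ) + 1 := by positivity
  refine lt_of_mul_lt_mul_left ?_ ha.le
  have h8 : 0 < 1 - ((a : ℝ) + 1) * θ := by
    by_contra h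
    push Not at h
    nlinarith
  have h9 := mul_le_mul_of_nonneg_left hX h8.le
  nlinarith

/-- Two different powers in `(u, u + s]` with `s ≤ 2 ^ 50 * sqrt u`. -/
theorem interval_half (p q k l u s : ℕ) (hp : 2 ≤ p) (hq : 2 ≤ q) (hne : p ^ l ≠ q ^ k)
    (h1 : u < p ^ l) (h2 : p ^ l ≤ u + s) (h3 : u < q ^ k) (h4 : q ^ k ≤ u + s)
    (hs : s ^ 2 ≤ 2 ^ 100 * u) : log ((u : ℝ) + s) < 10000 * (log p * log q) := by
  have l1 := log_1e4_bounds
  refine interval_aux p q k l u s 1 hp hq hne h1 h2 h3 h4 10000 0.4921 le_rfl ?_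
    (by simpa using hs) (by norm_num)
  nlinarith

/-- Two different powers in `(u, u + s]` with `s ≤ 2 ^ 25 * u ^ (3 / 4)`. -/
theorem interval_quarter (p q k l u s : ℕ) (hp : 2 ≤ p) (hq : 2 ≤ q) (hne : p ^ l ≠ q ^ k)
    (h1 : u < p ^ l) (h2 : p ^ l ≤ u + s) (h3 : u < q ^ k) (h4 : q ^ k ≤ u + s)
    (hs : s ^ 4 ≤ 2 ^ 100 * u ^ 3) : log ((u : ℝ) + s) < 24000 * (log p * log q) := by
  have l1 := log_1e4_bounds
  have l2 : log (24000 : ℝ) ≤ 10.11 ∧ 0 ≤ log (24000 : ℝ) := by
    have e : log (24000 : ℝ) = log 10000 + log 2 + log 1.2 := by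
      rw [← log_mul (by norm_num) (by norm_num), ← log_mul (by norm_num) (by norm_num)]
      norm_num
    have := log_le_sub_one_of_pos (show (0 : ℝ) < 1.2 by norm_num)
    have := log_two_lt_d9
    exact ⟨by linarith, log_nonneg (by norm_num)⟩
  refine interval_aux p q k l u s 3 hp hq hne h1 h2 h3 h4 24000 0.2364 (by norm_num) ?_
    (by simpa using hs) (by norm_num)
  nlinarith

theorem exponent_lt (p q l u s : ℕ) (hp : 2 ≤ p) (h2 : p ^ l ≤ u + s) (B0 : ℝ)
    (h : log ((u : ℝ) + s) < B0 * (log p * log q)) : (l : ℝ) < B0 * log q := by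
  have hp' : (2 : ℝ) ≤ p := by exact_mod_cast hp
  have hA2 : 0 < log p := log_pos (by linarith)
  have a2 : (p : ℝ) ^ l ≤ u + s := by exact_mod_cast h2
  have b2 := log_le_log (by positivity) a2
  rw [log_pow] at b2
  refine lt_of_mul_lt_mul_right ?_ hA2.le
  linarith

/-- A power of two and a different power `p ^ l` in a short interval: `l ≤ 6931`. -/
theorem exponent_le_two (p k l u s : ℕ) (hp : 2 ≤ p) (hne : p ^ l ≠ 2 ^ k)
    (h1 : u < p ^ l) (h2 : p ^ l ≤ u + s) (h3 : u < 2 ^ k) (h4 : 2 ^ k ≤ u + s)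
    (hs : s ^ 2 ≤ 2 ^ 100 * u) : l ≤ 6931 := by
  have h := exponent_lt p 2 l u s hp h2 10000
    (interval_half p 2 k l u s hp le_rfl hne h1 h2 h3 h4 hs)
  have := log_two_lt_d9
  have h5 : (l : ℝ) < 6932 := by
    push_cast at h
    linarith
  have : l < 6932 := by exact_mod_cast h5
  omega

end Pool.Agent.MP_089fcb_co.H21
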