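import Mathlib

/-!
Zero lemma (Nesterenko's determinant argument), extraction of a non-zero minor and
triangular changes of the polynomial basis.
-/

namespace Pool.Agent.MP_089fcb_co.H21

open Finset Polynomial Matrix

theorem det_perm {n R : Type*} [Fintype n] [DecidableEq n] [CommRing R] (M : Matrix n n R) :
    M.det = ∑ σ : Equiv.Perm n, ((Equiv.Perm.sign σ : ℤ) : R) * ∏ i, M i (σ i) := by
  rw [← Matrix.det_transpose, Matrix.det_apply']
  simp [Matrix.transpose_apply]

theorem exists_minor {ι κ : Type} [Fintype ι] [Fintype κ] [DecidableEq ι] (A : Matrix ι κ ℝ)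
    (h : ∀ v : ι → ℝ, (∀ j, ∑ i, v i * A i j = 0) → ∀ i, v i = 0) :
    ∃ f : ι → κ, Function.Injective f ∧ (Matrix.of fun i j => A i (f j)).det ≠ 0 := by
  classical
  have hrow : LinearIndependent ℝ A.row := by
    rw [Fintype.linearIndependent_iff]
    intro g hg
    apply h g
    intro j
    have := congrFun hg j
    simpa [Finset.sum_apply, Matrix.row] using this
  obtain ⟨κ', a, ha, hsp, hli⟩ := exists_linearIndependent' ℝ A.col
  have : Finite κ' := Finite.of_injective a ha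
  have : Fintype κ' := Fintype.ofFinite κ'
  have h1 : A.rank = Fintype.card ι := hrow.rank_matrix
  have h2 := finrank_span_eq_card hli
  rw [hsp, ← Matrix.rank_eq_finrank_span_cols, h1] at h2
  let e : ι ≃ κ' := Fintype.equivOfCardEq h2
  refine ⟨a ∘ e, ha.comp e.injective, ?_⟩
  have h3 : LinearIndependent ℝ (Matrix.of fun i j => A i ((a ∘ e) j)).col :=
    hli.comp e e.injective
  have h4 := Matrix.linearIndependent_cols_iff_isUnit.1 h3
  exact ((Matrix.isUnit_iff_isUnit_det _).1 h4).ne_zero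

theorem zero_poly {L : ℕ} (D : ℕ) (Q : Fin L → ℝ[X]) (hQ : ∀ i, (Q i).natDegree ≤ D)
    (x1 y1 : Fin L → ℝ) (hy1 : Function.Injective y1) (hy0 : ∀ j, y1 j ≠ 0)
    (Z : Finset ℝ) (hZ : D * L < Z.card)
    (hvan : ∀ x ∈ Z, ∃ y : ℝ, y ≠ 0 ∧
      ∀ j, ∑ i, (Q i).eval (x + x1 j) * (y1 j * y) ^ (i : ℕ) = 0) :
    ∀ i, Q i = 0 := by
  classical
  by_contra hne
  push Not at hne
  obtain ⟨i0, hi0⟩ := hne
  let Q' : Fin L → ℝ[X] := fun i => if Q i = 0 then 1 else Q i
  have hQ'0 : ∀ i, Q' i ≠ 0 := by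
    intro i
    by_cases h : Q i = 0 <;> simp [Q', h]
  have hQ'd : ∀ i, (Q' i).natDegree ≤ D := by
    intro i
    by_cases h : Q i = 0
    · simp [Q', h]
    · simpa [Q', h] using hQ i
  let A : Matrix (Fin L) (Fin L) ℝ[X] :=
    Matrix.of fun i j => C (y1 j ^ (i : ℕ)) * taylor (x1 j) (Q' i)
  have hA0 : ∀ i j, A i j ≠ 0 := by
    intro i j
    refine mul_ne_zero (C_ne_zero.2 (pow_ne_zero _ (hy0 j))) ?_
    exact fun h => hQ'0 i ((taylor_eq_zero (x1 j) (Q' i)).1 h)
  have hAd : ∀ i j, (A i j).natDegree = (Q' i).natDegree := by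
    intro i j
    change (C (y1 j ^ (i : ℕ)) * taylor (x1 j) (Q' i)).natDegree = _
    rw [natDegree_C_mul (pow_ne_zero _ (hy0 j)), natDegree_taylor]
  have hAl : ∀ i j, (A i j).leadingCoeff = y1 j ^ (i : ℕ) * (Q' i).leadingCoeff := by
    intro i j
    change (C (y1 j ^ (i : ℕ)) * taylor (x1 j) (Q' i)).leadingCoeff = _
    rw [leadingCoeff_mul, leadingCoeff_C, leadingCoeff_taylor]
  set d := ∑ i, (Q' i).natDegree with hd
  have hpd : ∀ σ : Equiv.Perm (Fin L), (∏ i, A i (σ i)).natDegree = d := by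
    intro σ
    rw [natDegree_prod _ _ (fun i _ => hA0 i (σ i))]
    exact Finset.sum_congr rfl fun i _ => hAd _ _
  have hdeg : A.det.natDegree ≤ d := by
    rw [det_perm]
    refine natDegree_sum_le_of_forall_le _ _ fun σ _ => ?_
    refine natDegree_mul_le.trans ?_
    rw [natDegree_intCast, zero_add, hpd]
  have hcoeff : A.det.coeff d
      = (∏ i, (Q' i).leadingCoeff) * (Matrix.vandermonde y1).det := by
    rw [det_perm, finsetSum_coeff, ← Matrix.det_transpose, det_perm, Finset.mul_sum]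
    refine Finset.sum_congr rfl fun σ _ => ?_
    rw [← map_intCast (C : ℝ →+* ℝ[X]), coeff_C_mul, ← hpd σ, coeff_natDegree, leadingCoeff_prod]
    simp_rw [hAl]
    rw [Finset.prod_mul_distrib]
    simp only [Matrix.transpose_apply, Matrix.vandermonde_apply]
    ring
  have hdet0 : A.det ≠ 0 := by
    intro h
    rw [h, coeff_zero] at hcoeff
    refine mul_ne_zero ?_ (Matrix.det_vandermonde_ne_zero_iff.2 hy1) hcoeff.symm
    exact Finset.prod_ne_zero_iff.2 fun i _ => leadingCoeff_ne_zero.2 (hQ'0 i)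
  have hroots : Z.val ⊆ A.det.roots := by
    intro x hx
    obtain ⟨y, hy, hxy⟩ := hvan x hx
    rw [mem_roots hdet0, IsRoot.def, ← coe_evalRingHom, RingHom.map_det,
      ← Matrix.exists_vecMul_eq_zero_iff]
    refine ⟨fun i => if Q i = 0 then 0 else y ^ (i : ℕ), ?_, ?_⟩
    · intro h
      have := congrFun h i0
      simp [hi0, hy] at this
    · funext j
      refine Eq.trans ?_ (hxy j)
      simp only [Matrix.vecMul, dotProduct, RingHom.mapMatrix_apply, Matrix.map_apply]
      refine Finset.sum_congr rfl fun i _ => ?_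
      by_cases h : Q i = 0
      · simp [h]
      · simp only [A, Q', h, if_false, Matrix.of_apply, coe_evalRingHom, eval_mul, eval_C,
          taylor_eval]
        ring
  have h1 := card_le_degree_of_subset_roots hroots
  have h2 : d ≤ D * L := by
    calc d ≤ ∑ _i : Fin L, D := Finset.sum_le_sum fun i _ => hQ'd i
      _ = D * L := by simp [mul_comm]
  omega

theorem zero_lemma (p q b1 b2 K L R2 S : ℕ) (hp : 1 ≤ p) (hq : 2 ≤ q) (hcop : Nat.Coprime b1 b2)
    (hR2 : R2 ≤ b1) (hcard : (K - 1) * L < R2 * S) (v : Fin K × Fin L → ℝ)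
    (hv : ∀ j : Fin (R2 + L - 1) × Fin S, ∑ i : Fin K × Fin L,
      v i * ((((j.1 : ℕ) * b2 + (j.2 : ℕ) * b1 : ℕ) : ℝ) ^ (i.1 : ℕ)
        * ((q : ℝ) ^ (j.1 : ℕ) * (p : ℝ) ^ (j.2 : ℕ)) ^ (i.2 : ℕ)) = 0) :
    ∀ i, v i = 0 := by
  classical
  let Q : Fin L → ℝ[X] := fun l => ∑ k : Fin K, C (v (k, l)) * X ^ (k : ℕ)
  have hQd : ∀ l, (Q l).natDegree ≤ K - 1 := by
    intro l
    refine natDegree_sum_le_of_forall_le _ _ fun k _ => ?_
    refine (natDegree_C_mul_X_pow_le _ _).trans ?_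
    have := k.2
    omega
  have hq1 : (1 : ℝ) < q := by exact_mod_cast hq
  have hq0 : (q : ℝ) ≠ 0 := by positivity
  have hp0 : (p : ℝ) ≠ 0 := by
    have : (1 : ℝ) ≤ p := by exact_mod_cast hp
    positivity
  let g : ℕ × ℕ → ℝ := fun rs => ((rs.1 * b2 + rs.2 * b1 : ℕ) : ℝ)
  have hginj : Set.InjOn g ((range R2 ×ˢ range S : Finset (ℕ × ℕ)) : Set (ℕ × ℕ)) := by
    rintro ⟨r, s⟩ h1 ⟨r', s'⟩ h2 h
    have h3 : r * b2 + s * b1 = r' * b2 + s' * b1 := Nat.cast_injective (R := ℝ) h
    have hr : r < b1 := by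
      have := Finset.mem_range.1 (Finset.mem_product.1 (Finset.mem_coe.1 h1)).1
      exact lt_of_lt_of_le this hR2
    have hr' : r' < b1 := by
      have := Finset.mem_range.1 (Finset.mem_product.1 (Finset.mem_coe.1 h2)).1
      exact lt_of_lt_of_le this hR2
    have h4 : r * b2 ≡ r' * b2 [MOD b1] := by
      have e1 : (r * b2 + s * b1) % b1 = (r * b2) % b1 := Nat.add_mul_mod_self_right _ _ _
      have e2 : (r' * b2 + s' * b1) % b1 = (r' * b2) % b1 := Nat.add_mul_mod_self_right _ _ _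
      unfold Nat.ModEq
      rw [← e1, ← e2, h3]
    have h5 : r ≡ r' [MOD b1] := Nat.ModEq.cancel_right_of_coprime hcop h4
    have h6 : r = r' := Nat.ModEq.eq_of_lt_of_lt h5 hr hr'
    subst h6
    have h7 : s * b1 = s' * b1 := by omega
    have h8 : s = s' := Nat.eq_of_mul_eq_mul_right (by omega) h7
    rw [h8]
  have hQ := zero_poly (K - 1) Q hQd (fun j => ((j : ℕ) * b2 : ℕ)) (fun j => (q : ℝ) ^ (j : ℕ))
    (fun j j' h => Fin.ext (pow_right_injective₀ (by positivity) hq1.ne' h))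
    (fun j => pow_ne_zero _ hq0) ((range R2 ×ˢ range S).image g)
    (by rw [Finset.card_image_of_injOn hginj, Finset.card_product, Finset.card_range,
      Finset.card_range]; exact hcard)
    (by
      intro x hx
      obtain ⟨⟨r, s⟩, hrs, rfl⟩ := Finset.mem_image.1 hx
      have hr := Finset.mem_range.1 (Finset.mem_product.1 hrs).1
      have hs := Finset.mem_range.1 (Finset.mem_product.1 hrs).2
      refine ⟨(q : ℝ) ^ r * (p : ℝ) ^ s, by positivity, fun j => ?_⟩
      have hj := j.2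
      have h1 := hv (⟨r + j, by simp only at hr; omega⟩, ⟨s, hs⟩)
      rw [Fintype.sum_prod_type, Finset.sum_comm] at h1
      rw [← h1]
      refine Finset.sum_congr rfl fun l _ => ?_
      simp only [Q, eval_finsetSum, eval_mul, eval_C, eval_pow, eval_X, Finset.sum_mul, g]
      refine Finset.sum_congr rfl fun k _ => ?_
      push_cast
      ring)
  rintro ⟨k, l⟩
  have h1 := congrArg (fun P => coeff P (k : ℕ)) (hQ l)
  simp only [Q, finsetSum_coeff, coeff_C_mul, coeff_X_pow, coeff_zero] at h1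
  rw [Finset.sum_eq_single k] at h1
  · simpa using h1
  · intro k' _ hk
    have : ¬ (k : ℕ) = k' := fun h => hk (Fin.ext h.symm)
    simp [this]
  · simp

theorem det_monic_change {K L : ℕ} (f : Fin K → ℝ[X]) (hdeg : ∀ k, (f k).natDegree = k)
    (hmon : ∀ k, (f k).Monic) (x : Fin K × Fin L → ℝ) (Y : Fin L → Fin K × Fin L → ℝ) :
    (Matrix.of fun i j : Fin K × Fin L => (f i.1).eval (x j) * Y i.2 j).det
      = (Matrix.of fun i j : Fin K × Fin L => x j ^ (i.1 : ℕ) * Y i.2 j).det := by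
  classical
  let Cm : Matrix (Fin K) (Fin K) ℝ := Matrix.of fun k k' => (f k).coeff k'
  have hC : Cm.det = 1 := by
    rw [← Matrix.det_transpose]
    exact Matrix.det_matrixOfPolynomials f hdeg hmon
  have hmul : (Matrix.of fun i j : Fin K × Fin L => (f i.1).eval (x j) * Y i.2 j)
      = Matrix.kroneckerMap (· * ·) Cm (1 : Matrix (Fin L) (Fin L) ℝ) *
        (Matrix.of fun i j : Fin K × Fin L => x j ^ (i.1 : ℕ) * Y i.2 j) := by
    ext ⟨k, l⟩ j
    rw [Matrix.mul_apply, Fintype.sum_prod_type]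
    simp only [Matrix.of_apply, Matrix.kroneckerMap_apply, Cm, Matrix.one_apply]
    have hk : (f k).natDegree < K := by rw [hdeg]; exact k.2
    rw [eval_eq_sum_range' hk, Finset.sum_range, Finset.sum_mul]
    refine Finset.sum_congr rfl fun k' _ => ?_
    rw [Finset.sum_eq_single l]
    · simp [mul_assoc]
    · intro l' _ hl
      simp [Ne.symm hl]
    · simp
  rw [hmul, Matrix.det_mul, Matrix.det_kronecker, hC]
  simp

end Pool.Agent.MP_089fcb_co.H21
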