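import Pool.Agent.MP_089fcb_co.H21.DetBound
import Pool.Agent.MP_089fcb_co.H21.ZeroLemma

/-!
Interpolation determinant for a linear form in two logarithms of integers: the inequality
between the parameters (in the style of Laurent, Mignotte and Nesterenko).
-/

namespace Pool.Agent.MP_089fcb_co.H21

open Finset Polynomial Matrix

theorem det_lower {K L : ℕ} (p q : ℕ) (r s x : Fin K × Fin L → ℕ) (m1 m2 : ℕ)
    (h1 : ∀ σ : Equiv.Perm (Fin K × Fin L), m1 ≤ ∑ i, (i.2 : ℕ) * r (σ i))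
    (h2 : ∀ σ : Equiv.Perm (Fin K × Fin L), m2 ≤ ∑ i, (i.2 : ℕ) * s (σ i))
    (hne : (Matrix.of fun i j : Fin K × Fin L =>
      (x j : ℝ) ^ (i.1 : ℕ) * ((q : ℝ) ^ r j * (p : ℝ) ^ s j) ^ (i.2 : ℕ)).det ≠ 0) :
    (∏ k ∈ range K, (k.factorial : ℝ)) ^ L * ((q : ℝ) ^ m1 * (p : ℝ) ^ m2)
      ≤ |(Matrix.of fun i j : Fin K × Fin L =>
        (x j : ℝ) ^ (i.1 : ℕ) * ((q : ℝ) ^ r j * (p : ℝ) ^ s j) ^ (i.2 : ℕ)).det| := by
  classical
  have e1 := det_monic_change (K := K) (L := L) (fun k => descPochhammer ℝ (k : ℕ))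
    (fun k => descPochhammer_natDegree ℝ _) (fun k => monic_descPochhammer ℝ _)
    (fun j => (x j : ℝ)) (fun l j => ((q : ℝ) ^ r j * (p : ℝ) ^ s j) ^ (l : ℕ))
  let Bz : Matrix (Fin K × Fin L) (Fin K × Fin L) ℤ := Matrix.of fun i j =>
    ((x j).choose i.1 : ℤ) * ((q : ℤ) ^ r j * (p : ℤ) ^ s j) ^ (i.2 : ℕ)
  have e2 : (Matrix.of fun i j : Fin K × Fin L => (descPochhammer ℝ (i.1 : ℕ)).eval (x j : ℝ) *
      ((q : ℝ) ^ r j * (p : ℝ) ^ s j) ^ (i.2 : ℕ))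
      = Matrix.of fun i j => ((i.1 : ℕ).factorial : ℝ) * (Bz.map (Int.castRingHom ℝ)) i j := by
    ext i j
    simp only [Matrix.of_apply, Matrix.map_apply, Bz, descPochhammer_eval_eq_descFactorial,
      Nat.descFactorial_eq_factorial_mul_choose, eq_intCast]
    push_cast
    ring
  have e3 : (Bz.map (Int.castRingHom ℝ)).det = (Bz.det : ℝ) :=
    ((Int.castRingHom ℝ).map_det Bz).symm
  have e4 : ∏ i : Fin K × Fin L, ((i.1 : ℕ).factorial : ℝ)
      = (∏ k ∈ range K, (k.factorial : ℝ)) ^ L := by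
    rw [Fintype.prod_prod_type, ← Finset.prod_pow, Finset.prod_range]
    simp
  rw [e2, Matrix.det_mul_column, e3, e4] at e1
  rw [← e1] at hne ⊢
  have hB0 : Bz.det ≠ 0 := by
    intro h
    apply hne
    rw [h]
    simp
  have hdvd : (q : ℤ) ^ m1 * (p : ℤ) ^ m2 ∣ Bz.det := by
    rw [det_perm]
    refine Finset.dvd_sum fun σ _ => Dvd.dvd.mul_left ?_ _
    simp only [Bz, Matrix.of_apply, mul_pow, ← pow_mul, Finset.prod_mul_distrib,
      Finset.prod_pow_eq_pow_sum]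
    refine Dvd.dvd.mul_left (mul_dvd_mul (pow_dvd_pow _ ?_) (pow_dvd_pow _ ?_)) _
    · simpa [mul_comm] using h1 σ
    · simpa [mul_comm] using h2 σ
  have h3 : (q : ℤ) ^ m1 * (p : ℤ) ^ m2 ≤ |Bz.det| :=
    Int.le_of_dvd (abs_pos.2 hB0) ((dvd_abs _ _).2 hdvd)
  have h4 : (q : ℝ) ^ m1 * (p : ℝ) ^ m2 ≤ |(Bz.det : ℝ)| := by exact_mod_cast h3
  have h5 : 0 ≤ (∏ k ∈ range K, (k.factorial : ℝ)) ^ L := by positivity
  rw [abs_mul, abs_of_nonneg h5]
  exact mul_le_mul_of_nonneg_left h4 h5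

theorem cs_bound {ι κ : Type*} [Fintype ι] [Fintype κ] (a : ι → ℝ) (b : κ → ℝ) (f : ι → κ)
    (hf : Function.Injective f) (G : ℝ) (hG0 : 0 ≤ G)
    (hG : (∑ i, a i ^ 2) * (∑ j, b j ^ 2) ≤ G ^ 2) : ∑ i, |a i| * |b (f i)| ≤ G := by
  classical
  have h1 := Finset.sum_mul_sq_le_sq_mul_sq univ (fun i => |a i|) (fun i => |b (f i)|)
  simp only [sq_abs] at h1
  have h2 : ∑ i, b (f i) ^ 2 ≤ ∑ j, b j ^ 2 := by
    rw [← Finset.sum_image (s := univ) (g := f) (f := fun j => b j ^ 2) hf.injOn]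
    exact Finset.sum_le_sum_of_subset_of_nonneg (Finset.subset_univ _) fun _ _ _ => sq_nonneg _
  have h3 : 0 ≤ ∑ i, a i ^ 2 := Finset.sum_nonneg fun _ _ => sq_nonneg _
  exact le_of_sq_le_sq_of_nonneg' (h1.trans ((mul_le_mul_of_nonneg_left h2 h3).trans hG)) hG0
where
  le_of_sq_le_sq_of_nonneg' {u v : ℝ} (h : u ^ 2 ≤ v ^ 2) (hv : 0 ≤ v) : u ≤ v :=
    (abs_le_of_sq_le_sq' h hv).2

theorem sum_range_cast (n : ℕ) : ∑ t ∈ range n, (t : ℝ) = n * (n - 1) / 2 := by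
  induction n with
  | zero => simp
  | succ n ih => rw [Finset.sum_range_succ, ih]; push_cast; ring

theorem sum_range_sq_cast (n : ℕ) :
    ∑ t ∈ range n, (t : ℝ) ^ 2 = n * (n - 1) * (2 * n - 1) / 6 := by
  induction n with
  | zero => simp
  | succ n ih => rw [Finset.sum_range_succ, ih]; push_cast; ring

theorem sum_center (n : ℕ) : ∑ t : Fin n, (((t : ℕ) : ℝ) - (n - 1) / 2) = 0 := by
  rw [← Finset.sum_range (fun t => (t : ℝ) - (n - 1) / 2), Finset.sum_sub_distrib, sum_range_cast]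
  simp
  ring

theorem sum_sq_center (n : ℕ) :
    ∑ t : Fin n, (((t : ℕ) : ℝ) - (n - 1) / 2) ^ 2 ≤ (n : ℝ) ^ 3 / 12 := by
  rw [← Finset.sum_range (fun t => ((t : ℝ) - (n - 1) / 2) ^ 2)]
  have : ∑ t ∈ range n, ((t : ℝ) - (n - 1) / 2) ^ 2
      = ∑ t ∈ range n, (t : ℝ) ^ 2 - (n - 1) * ∑ t ∈ range n, (t : ℝ)
        + n * ((n - 1) / 2) ^ 2 := by
    rw [Finset.mul_sum, ← Finset.sum_sub_distrib]
    have : (n : ℝ) * ((n - 1) / 2) ^ 2 = ∑ _t ∈ range n, (((n : ℝ) - 1) / 2) ^ 2 := by simp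
    rw [this, ← Finset.sum_add_distrib]
    refine Finset.sum_congr rfl fun t _ => by ring
  rw [this, sum_range_cast, sum_range_sq_cast]
  have : (0 : ℝ) ≤ n := Nat.cast_nonneg n
  nlinarith

theorem abs_center_le {n : ℕ} (t : Fin n) : |((t : ℕ) : ℝ) - (n - 1) / 2| ≤ (n - 1) / 2 := by
  have h1 : ((t : ℕ) : ℝ) + 1 ≤ n := by exact_mod_cast t.2
  have h2 : (0 : ℝ) ≤ (t : ℕ) := Nat.cast_nonneg _
  rw [abs_le]
  constructor <;> linarith

theorem sum_log_factorial (n : ℕ) :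
    ((n : ℝ) + 1) * n / 2 * (Real.log n - 3 / 2)
      ≤ ∑ k ∈ range (n + 1), Real.log (k.factorial : ℝ) := by
  induction n with
  | zero => simp
  | succ n ih =>
    rw [Finset.sum_range_succ]
    have hn1 : (0 : ℝ) < (n : ℝ) + 1 := by positivity
    have h1 : ((n : ℝ) + 1) * Real.log ((n : ℝ) + 1) - (n + 1)
        ≤ Real.log ((n + 1).factorial : ℝ) := by
      have h2 := Real.pow_div_factorial_le_exp ((n : ℝ) + 1) hn1.le (n + 1)
      have h3 : (0 : ℝ) < ((n + 1).factorial : ℝ) := by positivity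
      have h4 := Real.log_le_log (by positivity) h2
      rw [Real.log_div (by positivity) h3.ne', Real.log_pow, Real.log_exp] at h4
      push_cast at h4
      linarith
    have h5 : (n : ℝ) * (Real.log ((n : ℝ) + 1) - Real.log n) ≤ 1 := by
      rcases Nat.eq_zero_or_pos n with rfl | hn
      · simp
      · have hn' : (0 : ℝ) < n := by exact_mod_cast hn
        rw [← Real.log_div hn1.ne' hn'.ne']
        have h6 := Real.log_le_sub_one_of_pos (div_pos hn1 hn')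
        have h7 : ((n : ℝ) + 1) / n - 1 = 1 / n := by field_simp; ring
        rw [h7] at h6
        calc (n : ℝ) * Real.log ((n + 1) / n) ≤ n * (1 / n) :=
              mul_le_mul_of_nonneg_left h6 hn'.le
          _ = 1 := by field_simp
    push_cast
    have h8 := mul_le_mul_of_nonneg_left h5 hn1.le
    nlinarith

theorem det_upper {K L R S : ℕ} (hK : 1 ≤ K) (hL : 1 ≤ L) (b1 b2 : ℕ) (hb2 : 0 < b2)
    (A1 A2 : ℝ) (hA1 : 0 ≤ A1) (hA2 : 0 ≤ A2) (f : Fin K × Fin L → Fin R × Fin S)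
    (ρ Z G1 G2 : ℝ) (hρ : 1 ≤ ρ) (hZ : (((R : ℝ) - 1) * b2 + ((S : ℝ) - 1) * b1) / 2 ≤ Z)
    (hG1 : ∀ σ : Equiv.Perm (Fin K × Fin L), ∑ i : Fin K × Fin L,
      |((i.2 : ℕ) : ℝ) - (L - 1) / 2| * |(((f (σ i)).1 : ℕ) : ℝ) - (R - 1) / 2| ≤ G1)
    (hG2 : ∀ σ : Equiv.Perm (Fin K × Fin L), ∑ i : Fin K × Fin L,
      |((i.2 : ℕ) : ℝ) - (L - 1) / 2| * |(((f (σ i)).2 : ℕ) : ℝ) - (S - 1) / 2| ≤ G2)
    (hΛ : ρ ^ (K * L) * (L * S * |b2 * A2 - b1 * A1| / (4 * b2)) ≤ 1 / 2) :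
    ρ ^ (K * L * (K * L - 1) / 2) * |(Matrix.of fun i j : Fin K × Fin L =>
        ((((f j).1 : ℕ) * b2 + ((f j).2 : ℕ) * b1 : ℕ) : ℝ) ^ (i.1 : ℕ) *
          Real.exp ((i.2 : ℕ) * (((f j).1 : ℕ) * A1 + ((f j).2 : ℕ) * A2))).det|
      ≤ Real.exp ((L - 1) / 2 * ∑ j, (((f j).1 : ℕ) * A1 + ((f j).2 : ℕ) * A2)) *
        ((4 * (K * L : ℕ) : ℝ) ^ (K * L) * (ρ * Z) ^ (∑ i : Fin K × Fin L, (i.1 : ℕ)) *
          Real.exp (ρ * (G1 * A1 + G2 * A2))) := by
  classical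
  have hρ0 : 0 ≤ ρ := by linarith
  have hb2' : (0 : ℝ) < b2 := by exact_mod_cast hb2
  set N := K * L with hN
  have hN1 : 1 ≤ N := Nat.mul_pos hK hL
  have hcard : Fintype.card (Fin K × Fin L) = N := by simp [hN]
  let c0 : ℝ := (((R : ℝ) - 1) * b2 + ((S : ℝ) - 1) * b1) / 2
  let lam : Fin K × Fin L → ℝ := fun i => ((i.2 : ℕ) : ℝ) - (L - 1) / 2
  let rc : Fin K × Fin L → ℝ := fun j => (((f j).1 : ℕ) : ℝ) - (R - 1) / 2
  let sc : Fin K × Fin L → ℝ := fun j => (((f j).2 : ℕ) : ℝ) - (S - 1) / 2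
  let z : Fin K × Fin L → ℝ := fun j => rc j * b2 + sc j * b1
  let Λ : ℝ := b2 * A2 - b1 * A1
  let η : Fin K × Fin L → Fin K × Fin L → ℝ := fun i j => lam i * sc j * Λ / b2
  let u : Fin K × Fin L → ℝ := fun i => lam i * (A1 / b2)
  let A' : Matrix (Fin K × Fin L) (Fin K × Fin L) ℝ := Matrix.of fun i j =>
    z j ^ (i.1 : ℕ) * Real.exp (u i * z j) * Real.exp (η i j)
  let h0 : ℝ := ((R : ℝ) - 1) / 2 * A1 + ((S : ℝ) - 1) / 2 * A2
  have e1 := det_monic_change (K := K) (L := L) (fun k => (X - C c0) ^ (k : ℕ))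
    (fun k => by rw [natDegree_pow, natDegree_X_sub_C, mul_one])
    (fun k => (monic_X_sub_C c0).pow _)
    (fun j => ((((f j).1 : ℕ) * b2 + ((f j).2 : ℕ) * b1 : ℕ) : ℝ))
    (fun l j => Real.exp ((l : ℕ) * (((f j).1 : ℕ) * A1 + ((f j).2 : ℕ) * A2)))
  have e2 : (Matrix.of fun i j : Fin K × Fin L => ((X - C c0) ^ (i.1 : ℕ)).eval
      ((((f j).1 : ℕ) * b2 + ((f j).2 : ℕ) * b1 : ℕ) : ℝ) *
      Real.exp ((i.2 : ℕ) * (((f j).1 : ℕ) * A1 + ((f j).2 : ℕ) * A2)))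
      = Matrix.of fun i j => Real.exp (lam i * h0) * (Matrix.of fun i j =>
        Real.exp ((L - 1) / 2 * (((f j).1 : ℕ) * A1 + ((f j).2 : ℕ) * A2)) * A' i j) i j := by
    ext i j
    simp only [Matrix.of_apply, eval_pow, eval_sub, eval_X, eval_C, A']
    have e3 : ((((f j).1 : ℕ) * b2 + ((f j).2 : ℕ) * b1 : ℕ) : ℝ) - c0 = z j := by
      simp only [z, rc, sc, c0]
      push_cast
      ring
    have e4 : ((i.2 : ℕ) : ℝ) * (((f j).1 : ℕ) * A1 + ((f j).2 : ℕ) * A2)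
        = lam i * h0 + (L - 1) / 2 * (((f j).1 : ℕ) * A1 + ((f j).2 : ℕ) * A2)
          + u i * z j + η i j := by
      simp only [z, rc, sc, lam, h0, u, η, Λ]
      field_simp
      ring
    rw [e3, e4, Real.exp_add, Real.exp_add, Real.exp_add]
    ring
  have e5 : ∑ i, lam i * h0 = 0 := by
    rw [← Finset.sum_mul, Fintype.sum_prod_type]
    simp only [lam, sum_center]
    simp
  rw [e2, Matrix.det_mul_column, Matrix.det_mul_row, ← Real.exp_sum, ← Real.exp_sum, e5,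
    Real.exp_zero, one_mul, ← Finset.mul_sum] at e1
  rw [← e1, abs_mul, abs_of_pos (Real.exp_pos _), mul_left_comm]
  refine mul_le_mul_of_nonneg_left ?_ (Real.exp_pos _).le
  have hz : ∀ j, |z j| ≤ Z := by
    intro j
    refine le_trans ?_ hZ
    have h1 : |rc j| ≤ (R - 1) / 2 := abs_center_le _
    have h2 : |sc j| ≤ (S - 1) / 2 := abs_center_le _
    have h3 : (0 : ℝ) ≤ b1 := Nat.cast_nonneg _
    calc |z j| ≤ |rc j * b2| + |sc j * b1| := abs_add_le _ _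
      _ = |rc j| * b2 + |sc j| * b1 := by
        rw [abs_mul, abs_mul, abs_of_pos hb2', abs_of_nonneg h3]
      _ ≤ (R - 1) / 2 * b2 + (S - 1) / 2 * b1 :=
        add_le_add (mul_le_mul_of_nonneg_right h1 hb2'.le) (mul_le_mul_of_nonneg_right h2 h3)
      _ = _ := by ring
  have hη : ∀ i j, ρ ^ N * |η i j| ≤ 1 / 2 := by
    intro i j
    refine le_trans (mul_le_mul_of_nonneg_left ?_ (by positivity)) hΛ
    have h1 : |lam i| ≤ L / 2 := (abs_center_le _).trans (by linarith)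
    have h2 : |sc j| ≤ S / 2 := (abs_center_le _).trans (by linarith)
    have h3 : |lam i| * |sc j| ≤ L / 2 * (S / 2) :=
      mul_le_mul h1 h2 (abs_nonneg _) (by positivity)
    have e : |η i j| = |lam i| * |sc j| * (|Λ| / b2) := by
      simp only [η]
      rw [abs_div, abs_mul, abs_mul, abs_of_pos hb2', mul_div_assoc]
    rw [e]
    refine (mul_le_mul_of_nonneg_right h3 (by positivity)).trans (le_of_eq ?_)
    simp only [Λ]
    field_simp
    ring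
  let W : Matrix (Fin K × Fin L) (Fin K × Fin L) ℝ := fun i j =>
    4 * (ρ * Z) ^ (i.1 : ℕ) * Real.exp (ρ * (|lam i| * |rc j| * A1 + |lam i| * |sc j| * A2))
  have hmain := det_bound N hcard ρ hρ (fun i => tc i.1 (u i)) z
    (fun i j => A' i j - ∑ m ∈ range N, tc i.1 (u i) m * z j ^ m) A' W
    (fun i j => by ring) (by
      intro i j
      have hk : (i.1 : ℕ) ≤ N := by
        have := i.1.2
        have : K ≤ K * L := Nat.le_mul_of_pos_right _ hL
        omega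
      refine (row_bound N i.1 hk ρ (u i) (z j) (η i j) hρ).trans ?_
      have h1 := hη i j
      have h2 : ρ ≤ ρ ^ N := le_self_pow₀ hρ (by omega)
      have h3 : ρ * |η i j| ≤ 1 / 2 :=
        (mul_le_mul_of_nonneg_right h2 (abs_nonneg _)).trans h1
      have h4 : |η i j| ≤ 1 := by
        have := abs_nonneg (η i j)
        nlinarith
      have h5 := Real.abs_exp_sub_one_le h4
      have h6 : 1 + ρ ^ N * |Real.exp (η i j) - 1| ≤ 2 := by
        have := mul_le_mul_of_nonneg_left h5 (show 0 ≤ ρ ^ N by positivity)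
        linarith
      have h7 : |u i * z j| ≤ |lam i| * |rc j| * A1 + |lam i| * |sc j| * A2 + |η i j| := by
        have e : u i * z j = lam i * rc j * A1 + lam i * sc j * A2 + - η i j := by
          simp only [u, z, η, Λ]
          field_simp
          ring
        rw [e]
        refine (abs_add_three _ _ _).trans (le_of_eq ?_)
        rw [abs_neg, abs_mul, abs_mul, abs_mul, abs_mul, abs_of_nonneg hA1, abs_of_nonneg hA2]
      have h8 : Real.exp (ρ * |u i * z j|)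
          ≤ Real.exp (ρ * (|lam i| * |rc j| * A1 + |lam i| * |sc j| * A2)) * 2 := by
        have h9 : Real.exp (1 / 2) ≤ 2 := by
          have := Real.log_two_gt_d9
          calc Real.exp (1 / 2) ≤ Real.exp (Real.log 2) := Real.exp_le_exp.2 (by linarith)
            _ = 2 := Real.exp_log (by norm_num)
        refine le_trans ?_ (mul_le_mul_of_nonneg_left h9 (Real.exp_pos _).le)
        rw [← Real.exp_add]
        apply Real.exp_le_exp.2
        have := mul_le_mul_of_nonneg_left h7 hρ0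
        linarith
      have h10 : (ρ * |z j|) ^ (i.1 : ℕ) ≤ (ρ * Z) ^ (i.1 : ℕ) :=
        pow_le_pow_left₀ (by positivity) (mul_le_mul_of_nonneg_left (hz j) hρ0) _
      have h11 : 0 ≤ (ρ * Z) ^ (i.1 : ℕ) := le_trans (by positivity) h10
      calc (ρ * |z j|) ^ (i.1 : ℕ) * Real.exp (ρ * |u i * z j|)
            * (1 + ρ ^ N * |Real.exp (η i j) - 1|)
          ≤ (ρ * Z) ^ (i.1 : ℕ) *
            (Real.exp (ρ * (|lam i| * |rc j| * A1 + |lam i| * |sc j| * A2)) * 2) * 2 :=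
            mul_le_mul (mul_le_mul h10 h8 (Real.exp_pos _).le h11) h6 (by positivity)
              (by positivity)
        _ = W i j := by simp only [W]; ring)
  refine hmain.trans ?_
  have hZ0 : 0 ≤ Z := (abs_nonneg _).trans (hz (⟨0, hK⟩, ⟨0, hL⟩))
  have hterm : ∀ σ : Equiv.Perm (Fin K × Fin L), ∏ i, W i (σ i)
      ≤ 4 ^ N * (ρ * Z) ^ (∑ i : Fin K × Fin L, (i.1 : ℕ)) *
          Real.exp (ρ * (G1 * A1 + G2 * A2)) := by
    intro σ
    simp only [W]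
    rw [Finset.prod_mul_distrib, Finset.prod_mul_distrib, Finset.prod_const, Finset.card_univ,
      hcard, Finset.prod_pow_eq_pow_sum, ← Real.exp_sum]
    refine mul_le_mul_of_nonneg_left (Real.exp_le_exp.2 ?_) (by positivity)
    rw [← Finset.mul_sum, Finset.sum_add_distrib, ← Finset.sum_mul, ← Finset.sum_mul]
    exact mul_le_mul_of_nonneg_left (add_le_add (mul_le_mul_of_nonneg_right (hG1 σ) hA1)
      (mul_le_mul_of_nonneg_right (hG2 σ) hA2)) hρ0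
  refine (Finset.sum_le_sum fun σ _ => hterm σ).trans ?_
  rw [Finset.sum_const, Finset.card_univ, Fintype.card_perm, hcard, nsmul_eq_mul, mul_pow 4]
  have h12 : (N.factorial : ℝ) ≤ (N : ℝ) ^ N := by exact_mod_cast Nat.factorial_le_pow N
  have h13 : 0 ≤ 4 ^ N * (ρ * Z) ^ (∑ i : Fin K × Fin L, (i.1 : ℕ)) *
          Real.exp (ρ * (G1 * A1 + G2 * A2)) := by positivity
  refine (mul_le_mul_of_nonneg_right h12 h13).trans (le_of_eq ?_)
  ring

theorem two_log_gen (p q b1 b2 K L R2 S : ℕ) (hp : 1 ≤ p) (hq : 2 ≤ q)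
    (hcop : Nat.Coprime b1 b2) (hb2 : 0 < b2) (hK : 2 ≤ K) (hL : 1 ≤ L) (hR2 : R2 ≤ b1)
    (hcard : (K - 1) * L < R2 * S) (ρ γ Z : ℝ) (hρ : 1 ≤ ρ) (hγ0 : 0 ≤ γ)
    (hγ : ((R2 + L - 1 : ℕ) : ℝ) * S ≤ γ ^ 2 * (K * L)) (hZ0 : 0 < Z)
    (hZ : ((((R2 + L - 1 : ℕ) : ℝ) - 1) * b2 + ((S : ℝ) - 1) * b1) / 2 ≤ Z)
    (hΛ : ρ ^ (K * L) * (L * S * |b2 * Real.log p - b1 * Real.log q| / (4 * b2)) ≤ 1 / 2) :
    (K : ℝ) * (L - 1) * Real.log ρ ≤ 2 * Real.log (4 * (K * L))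
      + (K - 1) * (Real.log (Z / (K - 1)) + 3 / 2)
      + (ρ + 1) * L * γ * (((R2 + L - 1 : ℕ) : ℝ) * Real.log q + S * Real.log p) / 6 := by
  classical
  set R := R2 + L - 1 with hR
  obtain ⟨f, hf, hdet⟩ := exists_minor (Matrix.of fun (i : Fin K × Fin L) (j : Fin R × Fin S) =>
      (((j.1 : ℕ) * b2 + (j.2 : ℕ) * b1 : ℕ) : ℝ) ^ (i.1 : ℕ)
        * ((q : ℝ) ^ (j.1 : ℕ) * (p : ℝ) ^ (j.2 : ℕ)) ^ (i.2 : ℕ))
    (fun v hv => zero_lemma p q b1 b2 K L R2 S hp hq hcop hR2 hcard v hv)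
  simp only [Matrix.of_apply] at hdet
  have hp' : (1 : ℝ) ≤ p := by exact_mod_cast hp
  have hq' : (1 : ℝ) ≤ q := by exact_mod_cast (by omega : 1 ≤ q)
  have hA1 : 0 ≤ Real.log q := Real.log_nonneg hq'
  have hA2 : 0 ≤ Real.log p := Real.log_nonneg hp'
  set A1 := Real.log q with hA1d
  set A2 := Real.log p with hA2d
  have hqe : (q : ℝ) = Real.exp A1 := (Real.exp_log (by linarith)).symm
  have hpe : (p : ℝ) = Real.exp A2 := (Real.exp_log (by linarith)).symm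
  have hK' : (2 : ℝ) ≤ K := by exact_mod_cast hK
  have hL' : (1 : ℝ) ≤ L := by exact_mod_cast hL
  have hR0 : (0 : ℝ) ≤ R := Nat.cast_nonneg _
  have hS0 : (0 : ℝ) ≤ S := Nat.cast_nonneg _
  let lam : Fin K × Fin L → ℝ := fun i => ((i.2 : ℕ) : ℝ) - (L - 1) / 2
  have hlam2 : ∑ i, lam i ^ 2 ≤ K * ((L : ℝ) ^ 3 / 12) := by
    rw [Fintype.sum_prod_type]
    refine (Finset.sum_le_sum fun k _ => sum_sq_center L).trans (le_of_eq ?_)
    simp
  have hlam0 : ∑ i, lam i = 0 := by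
    rw [Fintype.sum_prod_type]
    simp only [lam, sum_center]
    simp
  let G1 : ℝ := K * L * L * R * γ / 12
  let G2 : ℝ := K * L * L * S * γ / 12
  have hG1 : ∀ σ : Equiv.Perm (Fin K × Fin L), ∑ i : Fin K × Fin L,
      |lam i| * |(((f (σ i)).1 : ℕ) : ℝ) - (R - 1) / 2| ≤ G1 := by
    intro σ
    refine cs_bound lam (fun j : Fin R × Fin S => ((j.1 : ℕ) : ℝ) - (R - 1) / 2) (f ∘ σ)
      (hf.comp σ.injective) G1 (by positivity) ?_
    have h1 : ∑ j : Fin R × Fin S, (((j.1 : ℕ) : ℝ) - (R - 1) / 2) ^ 2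
        ≤ S * ((R : ℝ) ^ 3 / 12) := by
      rw [Fintype.sum_prod_type_right]
      refine (Finset.sum_le_sum fun k _ => sum_sq_center R).trans (le_of_eq ?_)
      simp
    refine (mul_le_mul hlam2 h1 (Finset.sum_nonneg fun _ _ => sq_nonneg _)
      (by positivity)).trans ?_
    have h2 := mul_le_mul_of_nonneg_left hγ
      (show (0 : ℝ) ≤ K * L * L ^ 2 * R ^ 2 / 144 by positivity)
    calc _ = K * L * L ^ 2 * R ^ 2 / 144 * ((R : ℝ) * S) := by ring
      _ ≤ _ := h2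
      _ = G1 ^ 2 := by simp only [G1]; ring
  have hG2 : ∀ σ : Equiv.Perm (Fin K × Fin L), ∑ i : Fin K × Fin L,
      |lam i| * |(((f (σ i)).2 : ℕ) : ℝ) - (S - 1) / 2| ≤ G2 := by
    intro σ
    refine cs_bound lam (fun j : Fin R × Fin S => ((j.2 : ℕ) : ℝ) - (S - 1) / 2) (f ∘ σ)
      (hf.comp σ.injective) G2 (by positivity) ?_
    have h1 : ∑ j : Fin R × Fin S, (((j.2 : ℕ) : ℝ) - (S - 1) / 2) ^ 2
        ≤ R * ((S : ℝ) ^ 3 / 12) := by
      rw [Fintype.sum_prod_type]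
      refine (Finset.sum_le_sum fun k _ => sum_sq_center S).trans (le_of_eq ?_)
      simp
    refine (mul_le_mul hlam2 h1 (Finset.sum_nonneg fun _ _ => sq_nonneg _)
      (by positivity)).trans ?_
    have h2 := mul_le_mul_of_nonneg_left hγ
      (show (0 : ℝ) ≤ K * L * L ^ 2 * S ^ 2 / 144 by positivity)
    calc _ = K * L * L ^ 2 * S ^ 2 / 144 * ((R : ℝ) * S) := by ring
      _ ≤ _ := h2
      _ = G2 ^ 2 := by simp only [G2]; ring
  have hlow : ∀ (t : Fin K × Fin L → ℕ) (c G : ℝ) (σ : Equiv.Perm (Fin K × Fin L)),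
      ∑ i, |lam i| * |(t (σ i) : ℝ) - c| ≤ G →
      ⌈((L : ℝ) - 1) / 2 * ∑ j, (t j : ℝ) - G⌉₊ ≤ ∑ i, (i.2 : ℕ) * t (σ i) := by
    intro t c G σ h
    rw [Nat.ceil_le]
    push_cast
    have e1 : ∑ i : Fin K × Fin L, ((i.2 : ℕ) : ℝ) * t (σ i)
        = ∑ i, lam i * ((t (σ i) : ℝ) - c) + (∑ i, lam i) * c
          + ((L : ℝ) - 1) / 2 * ∑ i, (t (σ i) : ℝ) := by
      rw [Finset.sum_mul, Finset.mul_sum, ← Finset.sum_add_distrib, ← Finset.sum_add_distrib]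
      refine Finset.sum_congr rfl fun i _ => ?_
      simp only [lam]
      ring
    have e2 : ∑ i, (t (σ i) : ℝ) = ∑ j, (t j : ℝ) := Equiv.sum_comp σ (fun j => (t j : ℝ))
    have h3 : - ∑ i, |lam i| * |(t (σ i) : ℝ) - c| ≤ ∑ i, lam i * ((t (σ i) : ℝ) - c) := by
      rw [← Finset.sum_neg_distrib]
      refine Finset.sum_le_sum fun i _ => ?_
      rw [← abs_mul]
      exact neg_abs_le _
    rw [e1, e2, hlam0]
    linarith
  have hl := det_lower p q (fun j => (f j).1) (fun j => (f j).2)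
    (fun j => ((f j).1 : ℕ) * b2 + ((f j).2 : ℕ) * b1) _ _
    (fun σ => hlow (fun j => (f j).1) _ G1 σ (hG1 σ))
    (fun σ => hlow (fun j => (f j).2) _ G2 σ (hG2 σ)) hdet
  have hu := det_upper (by omega : 1 ≤ K) hL b1 b2 hb2 A1 A2 hA1 hA2 f ρ Z G1 G2 hρ hZ hG1 hG2 hΛ
  have eM : (Matrix.of fun i j : Fin K × Fin L =>
        ((((f j).1 : ℕ) * b2 + ((f j).2 : ℕ) * b1 : ℕ) : ℝ) ^ (i.1 : ℕ) *
          Real.exp ((i.2 : ℕ) * (((f j).1 : ℕ) * A1 + ((f j).2 : ℕ) * A2)))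
      = Matrix.of fun i j : Fin K × Fin L =>
        ((((f j).1 : ℕ) * b2 + ((f j).2 : ℕ) * b1 : ℕ) : ℝ) ^ (i.1 : ℕ) *
          ((q : ℝ) ^ ((f j).1 : ℕ) * (p : ℝ) ^ ((f j).2 : ℕ)) ^ (i.2 : ℕ) := by
    ext i j
    simp only [Matrix.of_apply]
    rw [Real.exp_nat_mul, Real.exp_add, Real.exp_nat_mul, Real.exp_nat_mul, ← hqe, ← hpe]
  rw [eM] at hu
  set D := |(Matrix.of fun i j : Fin K × Fin L =>
        ((((f j).1 : ℕ) * b2 + ((f j).2 : ℕ) * b1 : ℕ) : ℝ) ^ (i.1 : ℕ) *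
          ((q : ℝ) ^ ((f j).1 : ℕ) * (p : ℝ) ^ ((f j).2 : ℕ)) ^ (i.2 : ℕ)).det|
  set M1 := ((L : ℝ) - 1) / 2 * ∑ j, (((f j).1 : ℕ) : ℝ) with hM1
  set M2 := ((L : ℝ) - 1) / 2 * ∑ j, (((f j).2 : ℕ) : ℝ) with hM2
  have eM2 : ((L : ℝ) - 1) / 2 * ∑ j, (((f j).1 : ℕ) * A1 + ((f j).2 : ℕ) * A2)
      = M1 * A1 + M2 * A2 := by
    rw [Finset.sum_add_distrib, ← Finset.sum_mul, ← Finset.sum_mul, hM1, hM2]
    ring
  rw [eM2] at hu
  set F := ∏ k ∈ range K, (k.factorial : ℝ) with hF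
  have hF0 : 0 < F := Finset.prod_pos fun k _ => by positivity
  set T := ∑ i : Fin K × Fin L, (i.1 : ℕ) with hT
  have hTr : (T : ℝ) = K * (K - 1) / 2 * L := by
    rw [hT, Fintype.sum_prod_type]
    push_cast
    simp only [Finset.sum_const, Finset.card_univ, Fintype.card_fin, nsmul_eq_mul]
    rw [← Finset.mul_sum, ← Finset.sum_range (fun t => (t : ℝ)), sum_range_cast]
    ring
  have hNr : ((K * L * (K * L - 1) / 2 : ℕ) : ℝ) = (K * L : ℝ) * (K * L - 1) / 2 := by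
    rw [← Finset.sum_range_id]
    push_cast
    rw [sum_range_cast]
    push_cast
    ring
  have hρ0 : 0 < ρ := by linarith
  have hN0 : (0 : ℝ) < ((K * L : ℕ) : ℝ) := by
    push_cast
    positivity
  have h5 : ρ ^ (K * L * (K * L - 1) / 2) * (F ^ L * ((q : ℝ) ^ ⌈M1 - G1⌉₊ * (p : ℝ) ^ ⌈M2 - G2⌉₊))
      ≤ Real.exp (M1 * A1 + M2 * A2) *
        ((4 * (K * L : ℕ) : ℝ) ^ (K * L) * (ρ * Z) ^ T * Real.exp (ρ * (G1 * A1 + G2 * A2))) :=
    (mul_le_mul_of_nonneg_left hl (by positivity)).trans hu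
  have h6 := Real.log_le_log (by positivity) h5
  rw [Real.log_mul (by positivity) (by positivity), Real.log_mul (by positivity) (by positivity),
    Real.log_mul (by positivity) (by positivity), Real.log_mul (by positivity) (by positivity),
    Real.log_mul (by positivity) (by positivity), Real.log_mul (by positivity) (by positivity),
    Real.log_pow, Real.log_pow, Real.log_pow, Real.log_pow, Real.log_pow, Real.log_pow,
    Real.log_exp, Real.log_exp, Real.log_mul hρ0.ne' hZ0.ne', hNr, hTr, ← hA1d, ← hA2d] at h6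
  have h7 : (M1 - G1) * A1 ≤ (⌈M1 - G1⌉₊ : ℝ) * A1 :=
    mul_le_mul_of_nonneg_right (Nat.le_ceil _) hA1
  have h8 : (M2 - G2) * A2 ≤ (⌈M2 - G2⌉₊ : ℝ) * A2 :=
    mul_le_mul_of_nonneg_right (Nat.le_ceil _) hA2
  have h9 : (K : ℝ) * (K - 1) / 2 * (Real.log (K - 1) - 3 / 2) ≤ Real.log F := by
    obtain ⟨n, rfl⟩ : ∃ n, K = n + 1 := ⟨K - 1, by omega⟩
    rw [hF, Real.log_prod (fun k _ => by positivity)]
    have := sum_log_factorial n
    push_cast
    simpa using this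
  have h10 := mul_le_mul_of_nonneg_left h9 (show (0 : ℝ) ≤ L by linarith)
  rw [Real.log_div hZ0.ne' (by linarith)]
  push_cast at h6 hN0
  have key : (K * L : ℝ) / 2 * ((K : ℝ) * (L - 1) * Real.log ρ) ≤ (K * L : ℝ) / 2 *
      (2 * Real.log (4 * (K * L)) + (K - 1) * (Real.log Z - Real.log (K - 1) + 3 / 2)
        + (ρ + 1) * L * γ * ((R : ℝ) * A1 + S * A2) / 6) := by
    simp only [G1, G2] at h6 h7 h8
    nlinarith
  exact le_of_mul_le_mul_left key (by positivity)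

end Pool.Agent.MP_089fcb_co.H21
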